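import Pool.Agent.Lib.MP_cb9986_co.SQ.Spec

set_option autoImplicit false
open Finset

namespace Pool.Agent.Lib.MP_cb9986_co.SQ

open Pool.Agent.Lib.MP_cb9986_co.S9

variable {α : Type} [DecidableEq α] [Fintype α]

theorem absorb_outN_card (A : Finset (Arc α)) (i : ZMod 3) (x : α) :
    (outN A i x).card ≤ A.card := by
  refine Finset.card_le_card_of_injOn (fun y => (i, x, y)) ?_ ?_
  · intro y hy
    exact mem_outN.1 hy
  · intro y _ z _ hyz
    simpa using hyz

theorem absorb_inN_card (A : Finset (Arc α)) (i : ZMod 3) (x : α) :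
    (inN A i x).card ≤ A.card := by
  refine Finset.card_le_card_of_injOn (fun y => (i + 2, y, x)) ?_ ?_
  · intro y hy
    exact mem_inN.1 hy
  · intro y _ z _ hyz
    simpa using hyz

omit [Fintype α] in
theorem absorb_restr_card (U : ZMod 3 → Finset α) (G : Finset (Arc α)) (M : ℕ)
    (hU : ∀ i, (U i).card ≤ M) : (restr U G).card ≤ 3 * M ^ 2 := by
  classical
  have hsub : restr U G ⊆ (Finset.univ : Finset (ZMod 3)).biUnion
      (fun i => (U i ×ˢ U (i + 1)).image (fun p => ((i, p.1, p.2) : Arc α))) := by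
    rintro ⟨i, x, y⟩ he
    rw [mem_restr] at he
    rw [Finset.mem_biUnion]
    refine ⟨i, Finset.mem_univ _, ?_⟩
    rw [Finset.mem_image]
    exact ⟨(x, y), Finset.mem_product.2 ⟨he.2.1, he.2.2⟩, rfl⟩
  refine (Finset.card_le_card hsub).trans ?_
  refine (Finset.card_biUnion_le).trans ?_
  have : ∀ i ∈ (Finset.univ : Finset (ZMod 3)),
      ((U i ×ˢ U (i + 1)).image (fun p => ((i, p.1, p.2) : Arc α))).card ≤ M ^ 2 := by
    intro i _
    refine (Finset.card_image_le).trans ?_
    rw [Finset.card_product, pow_two]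
    exact Nat.mul_le_mul (hU i) (hU (i + 1))
  refine (Finset.sum_le_sum this).trans ?_
  rw [Finset.sum_const, Finset.card_univ, ZMod.card, smul_eq_mul]

/-- common neighbours -/
theorem absorb_ext (n f : ℕ) (ε : ℝ) (G Z : Finset (Arc α)) (hn : Fintype.card α = n)
    (hε : 0 < ε) (hε5 : ε ≤ 1 / 4) (hf : (f : ℝ) < ε * n)
    (hG : ∀ i x, (3 / 4 + ε) * n ≤ (outN G i x).card ∧ (3 / 4 + ε) * n ≤ (inN G i x).card)
    (hZ : DegLe Z (ε / 10 * n)) (i : ZMod 3) (S S' X : Finset α)
    (hS : S.card + S'.card ≤ 4) (hX : X.card ≤ f) :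
    ∃ w, w ∉ X ∧ (∀ x ∈ S, (i + 2, x, w) ∈ G \ Z) ∧ (∀ x ∈ S', (i, w, x) ∈ G \ Z) := by
  classical
  by_contra hcon
  push Not at hcon
  set B : Finset α := X ∪ S.biUnion (fun x => (outN (G \ Z) (i + 2) x)ᶜ) ∪
    S'.biUnion (fun x => (inN (G \ Z) (i + 1) x)ᶜ) with hB
  have hall : ∀ w, w ∈ B := by
    intro w
    by_contra hw
    simp only [hB, Finset.mem_union, Finset.mem_biUnion, Finset.mem_compl, mem_outN, mem_inN,
      not_or, not_exists, not_and, not_not] at hw
    obtain ⟨⟨h1, h2⟩, h3⟩ := hw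
    obtain ⟨x, hx, hxw⟩ := hcon w h1 h2
    apply hxw
    have := h3 x hx
    rwa [(z3 i).2.1] at this
  have hBuniv : (Fintype.card α : ℝ) ≤ (B.card : ℝ) := by
    have : (Finset.univ : Finset α) ⊆ B := fun w _ => hall w
    exact_mod_cast Finset.card_le_card this
  have hn0 : (0 : ℝ) ≤ n := Nat.cast_nonneg n
  -- each complement is small
  have hout : ∀ j x, (((outN (G \ Z) j x)ᶜ).card : ℝ) ≤ (1 / 4 - 9 / 10 * ε) * n := by
    intro j x
    have h1 : ((outN (G \ Z) j x)ᶜ).card + (outN (G \ Z) j x).card = n := by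
      rw [← hn]; exact Finset.card_compl_add_card _
    have h2 : (outN G j x).card ≤ (outN (G \ Z) j x).card + (outN Z j x).card := by
      rw [outN_sdiff]
      have := Finset.le_card_sdiff (outN Z j x) (outN G j x)
      omega
    have h1' : (((outN (G \ Z) j x)ᶜ).card : ℝ) + ((outN (G \ Z) j x).card : ℝ) = n := by
      exact_mod_cast h1
    have h2' : ((outN G j x).card : ℝ) ≤ ((outN (G \ Z) j x).card : ℝ) + (outN Z j x).card := by
      exact_mod_cast h2
    have h3 := (hG j x).1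
    have h4 := (hZ j x).1
    nlinarith
  have hin : ∀ j x, (((inN (G \ Z) j x)ᶜ).card : ℝ) ≤ (1 / 4 - 9 / 10 * ε) * n := by
    intro j x
    have h1 : ((inN (G \ Z) j x)ᶜ).card + (inN (G \ Z) j x).card = n := by
      rw [← hn]; exact Finset.card_compl_add_card _
    have h2 : (inN G j x).card ≤ (inN (G \ Z) j x).card + (inN Z j x).card := by
      rw [inN_sdiff]
      have := Finset.le_card_sdiff (inN Z j x) (inN G j x)
      omega
    have h1' : (((inN (G \ Z) j x)ᶜ).card : ℝ) + ((inN (G \ Z) j x).card : ℝ) = n := by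
      exact_mod_cast h1
    have h2' : ((inN G j x).card : ℝ) ≤ ((inN (G \ Z) j x).card : ℝ) + (inN Z j x).card := by
      exact_mod_cast h2
    have h3 := (hG j x).2
    have h4 := (hZ j x).2
    nlinarith
  have hs1 : ((S.biUnion (fun x => (outN (G \ Z) (i + 2) x)ᶜ)).card : ℝ) ≤
      S.card * ((1 / 4 - 9 / 10 * ε) * n) := by
    have h1 : ((S.biUnion (fun x => (outN (G \ Z) (i + 2) x)ᶜ)).card : ℝ) ≤
        ∑ x ∈ S, (((outN (G \ Z) (i + 2) x)ᶜ).card : ℝ) := by
      exact_mod_cast Finset.card_biUnion_le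
    refine h1.trans ?_
    rw [← nsmul_eq_mul]
    exact Finset.sum_le_card_nsmul _ _ _ (fun x _ => hout _ x)
  have hs2 : ((S'.biUnion (fun x => (inN (G \ Z) (i + 1) x)ᶜ)).card : ℝ) ≤
      S'.card * ((1 / 4 - 9 / 10 * ε) * n) := by
    have h1 : ((S'.biUnion (fun x => (inN (G \ Z) (i + 1) x)ᶜ)).card : ℝ) ≤
        ∑ x ∈ S', (((inN (G \ Z) (i + 1) x)ᶜ).card : ℝ) := by
      exact_mod_cast Finset.card_biUnion_le
    refine h1.trans ?_
    rw [← nsmul_eq_mul]
    exact Finset.sum_le_card_nsmul _ _ _ (fun x _ => hin _ x)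
  have hBc : (B.card : ℝ) ≤ X.card + (S.biUnion (fun x => (outN (G \ Z) (i + 2) x)ᶜ)).card +
      (S'.biUnion (fun x => (inN (G \ Z) (i + 1) x)ᶜ)).card := by
    have := Finset.card_union_le (X ∪ S.biUnion (fun x => (outN (G \ Z) (i + 2) x)ᶜ))
      (S'.biUnion (fun x => (inN (G \ Z) (i + 1) x)ᶜ))
    have h2 := Finset.card_union_le X (S.biUnion (fun x => (outN (G \ Z) (i + 2) x)ᶜ))
    exact_mod_cast this.trans (Nat.add_le_add_right h2 _)
  have hX' : (X.card : ℝ) ≤ f := by exact_mod_cast hX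
  have hS5 : (S.card : ℝ) + S'.card ≤ 4 := by exact_mod_cast hS
  have hc0 : 0 ≤ (1 / 4 - 9 / 10 * ε) * n := by
    apply mul_nonneg _ hn0
    linarith
  have h5 : (S.card : ℝ) * ((1 / 4 - 9 / 10 * ε) * n) + S'.card * ((1 / 4 - 9 / 10 * ε) * n) ≤
      4 * ((1 / 4 - 9 / 10 * ε) * n) := by
    rw [← add_mul]
    exact mul_le_mul_of_nonneg_right hS5 hc0
  rw [hn] at hBuniv
  have hεn : 0 ≤ ε * n := mul_nonneg hε.le hn0
  nlinarith

/-- the induction -/
theorem absorb_list (h : AbsorbOneStmt) (N f : ℕ) (G Z : Finset (Arc α))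
    (U : ZMod 3 → Finset α) (M : ℕ) (hU : ∀ i, (U i).card ≤ M)
    (hN : (restr U G).card ≤ N)
    (hf : 3 * M + 36 * N * 2 ^ N + 6 * N + 7 ≤ f)
    (hext : ∀ (i : ZMod 3) (S S' X : Finset α), S.card + S'.card ≤ 4 → X.card ≤ f →
      ∃ w, w ∉ X ∧ (∀ x ∈ S, (i + 2, x, w) ∈ G \ Z) ∧ (∀ x ∈ S', (i, w, x) ∈ G \ Z))
    (HH : Finset (Finset (Arc α))) :
    (∀ H ∈ HH, H ⊆ restr U G ∧ Bal H) → HH.card ≤ 2 ^ N →
    ∃ A, A ⊆ G ∧ Disjoint A Z ∧ Disjoint A (restr U G) ∧ A.card ≤ 18 * N * HH.card ∧ Dec A ∧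
      ∀ H ∈ HH, Dec (H ∪ A) := by
  classical
  induction HH using Finset.induction_on with
  | empty =>
    intro _ _
    exact ⟨∅, Finset.empty_subset _, Finset.disjoint_empty_left _, Finset.disjoint_empty_left _,
      by simp, Dec.empty, by simp⟩
  | insert H₀ HH hnot ih =>
    intro hH hcard
    rw [Finset.card_insert_of_notMem hnot] at hcard
    obtain ⟨A, hAG, hAZ, hAU, hAc, hAD, hAH⟩ :=
      ih (fun H hh => hH H (Finset.mem_insert_of_mem hh)) (by omega)
    obtain ⟨hH₀, hbal⟩ := hH H₀ (Finset.mem_insert_self _ _)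
    set WU : Finset α := (Finset.univ : Finset (ZMod 3)).biUnion U with hWU
    set W : Finset α := WU ∪ (A.image (fun e => e.2.1) ∪ A.image (fun e => e.2.2)) with hW
    have hWUc : WU.card ≤ 3 * M := by
      refine (Finset.card_biUnion_le).trans ?_
      refine (Finset.sum_le_sum (fun i _ => hU i)).trans ?_
      rw [Finset.sum_const, Finset.card_univ, ZMod.card, smul_eq_mul]
    have hWc : W.card ≤ 3 * M + 2 * A.card := by
      have h1 := Finset.card_union_le WU (A.image (fun e => e.2.1) ∪ A.image (fun e => e.2.2))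
      have h2 := Finset.card_union_le (A.image (fun e => e.2.1)) (A.image (fun e => e.2.2))
      have h3 : (A.image (fun e => e.2.1)).card ≤ A.card := Finset.card_image_le
      have h4 : (A.image (fun e => e.2.2)).card ≤ A.card := Finset.card_image_le
      rw [hW]
      omega
    have hAc2 : 2 * A.card ≤ 36 * N * 2 ^ N := by
      have : 18 * N * HH.card ≤ 18 * N * 2 ^ N := Nat.mul_le_mul_left _ (by omega)
      calc 2 * A.card ≤ 2 * (18 * N * 2 ^ N) := by omega
        _ = 36 * N * 2 ^ N := by ring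
    have hUW : ∀ i, U i ⊆ W := by
      intro i x hx
      rw [hW, Finset.mem_union]
      left
      rw [hWU, Finset.mem_biUnion]
      exact ⟨i, Finset.mem_univ _, hx⟩
    have hrW : ∀ e ∈ restr U G, e.2.1 ∈ W ∧ e.2.2 ∈ W := by
      rintro ⟨i, x, y⟩ he
      rw [mem_restr] at he
      exact ⟨hUW _ he.2.1, hUW _ he.2.2⟩
    have hAW : ∀ e ∈ A, e.2.1 ∈ W ∧ e.2.2 ∈ W := by
      intro e he
      rw [hW]
      constructor
      · exact Finset.mem_union_right _ (Finset.mem_union_left _ (Finset.mem_image_of_mem _ he))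
      · exact Finset.mem_union_right _ (Finset.mem_union_right _ (Finset.mem_image_of_mem _ he))
    obtain ⟨A', hA'G, hA'D, hA'H, hA'dis, hA'W, hA'c⟩ := h α (G \ Z) H₀ W f N hbal
      ((Finset.card_le_card hH₀).trans hN) (fun e he => hrW e (hH₀ he)) (by omega) hext
    have hd1 : Disjoint A A' := by
      rw [Finset.disjoint_left]
      intro e he he'
      rcases hA'W e he' with h1 | h1
      · exact h1 (hAW e he).1
      · exact h1 (hAW e he).2
    have hd2 : Disjoint A' (restr U G) := by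
      rw [Finset.disjoint_left]
      intro e he he'
      rcases hA'W e he with h1 | h1
      · exact h1 (hrW e he').1
      · exact h1 (hrW e he').2
    refine ⟨A ∪ A', ?_, ?_, ?_, ?_, ?_, ?_⟩
    · exact Finset.union_subset hAG (hA'G.trans Finset.sdiff_subset)
    · rw [Finset.disjoint_union_left]
      refine ⟨hAZ, ?_⟩
      exact Finset.disjoint_of_subset_left hA'G Finset.sdiff_disjoint
    · rw [Finset.disjoint_union_left]
      exact ⟨hAU, hd2⟩
    · rw [Finset.card_insert_of_notMem hnot]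
      have := Finset.card_union_le A A'
      calc (A ∪ A').card ≤ A.card + A'.card := this
        _ ≤ 18 * N * HH.card + 18 * N := Nat.add_le_add hAc hA'c
        _ = 18 * N * (HH.card + 1) := by ring
    · exact hAD.union hA'D hd1
    · intro H hHH
      rw [Finset.mem_insert] at hHH
      rcases hHH with rfl | hHH
      · have e1 : H ∪ (A ∪ A') = (A' ∪ H) ∪ A := by
          ext e; simp only [Finset.mem_union]; tauto
        rw [e1]
        refine hA'H.union hAD ?_
        rw [Finset.disjoint_union_left]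
        exact ⟨hd1.symm, (Finset.disjoint_of_subset_right hH₀ hAU).symm⟩
      · have e1 : H ∪ (A ∪ A') = (H ∪ A) ∪ A' := by
          rw [Finset.union_assoc]
        rw [e1]
        refine (hAH H hHH).union hA'D ?_
        rw [Finset.disjoint_union_left]
        refine ⟨?_, hd1⟩
        exact (Finset.disjoint_of_subset_right (hH H (Finset.mem_insert_of_mem hHH)).1 hd2).symm

theorem absorb (h : AbsorbOneStmt) : AbsorbStmt := by
  intro M ε hε hε5
  set N : ℕ := 3 * M ^ 2 with hNdef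
  set f : ℕ := 3 * M + 36 * N * 2 ^ N + 6 * N + 7 with hfdef
  refine ⟨18 * N * 2 ^ N, ⌈(f : ℝ) / ε⌉₊ + 1, ?_⟩
  intro α _ _ n G Z U hn hn0 hU hG hZ
  have hf : (f : ℝ) < ε * n := by
    have h1 : (f : ℝ) / ε ≤ (⌈(f : ℝ) / ε⌉₊ : ℝ) := Nat.le_ceil _
    have h2 : ((⌈(f : ℝ) / ε⌉₊ + 1 : ℕ) : ℝ) ≤ (n : ℝ) := by exact_mod_cast hn0
    push_cast at h2
    have h3 : (f : ℝ) / ε < n := by linarith
    rw [div_lt_iff₀ hε] at h3
    linarith
  have hN : (restr U G).card ≤ N := absorb_restr_card U G M hU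
  classical
  obtain ⟨A, hAG, hAZ, hAU, hAc, hAD, hAH⟩ := absorb_list h N f G Z U M hU hN le_rfl
    (absorb_ext n f ε G Z hn hε hε5 hf hG hZ)
    ((restr U G).powerset.filter fun H => Bal H)
    (fun H hH => by
      rw [Finset.mem_filter, Finset.mem_powerset] at hH
      exact hH)
    (by
      refine (Finset.card_filter_le _ _).trans ?_
      rw [Finset.card_powerset]
      exact Nat.pow_le_pow_right (by norm_num) hN)
  have hcard : ((restr U G).powerset.filter fun H => Bal H).card ≤ 2 ^ N := by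
    refine (Finset.card_filter_le _ _).trans ?_
    rw [Finset.card_powerset]
    exact Nat.pow_le_pow_right (by norm_num) hN
  have hAc' : A.card ≤ 18 * N * 2 ^ N := hAc.trans (Nat.mul_le_mul_left _ hcard)
  refine ⟨A, hAG, hAZ, hAU, ?_, hAD, ?_⟩
  · intro i x
    constructor
    · exact_mod_cast (absorb_outN_card A i x).trans hAc'
    · exact_mod_cast (absorb_inN_card A i x).trans hAc'
  · intro H hH hb
    exact hAH H (by rw [Finset.mem_filter, Finset.mem_powerset]; exact ⟨hH, hb⟩)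

end Pool.Agent.Lib.MP_cb9986_co.SQ
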