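import Pool.Agent.Lib.MP_cb9986_co.SQ.Spec

/-!
Swarm S9, the absorber gadget: `AbsorbOneStmt`.

The proof is by induction on the number of arcs of `H`, and simpler than the one in the docstring of
`AbsorbOneStmt`. If `H` contains a triangle, remove it. Otherwise take a path
`z₀ x y z x' y'` in `H` (`x`, `x'` of class 0) and new vertices `u` (class 0), `b`, `b'` (class 1),
`c`, `c'` (class 2), and put
`A = u b z₀ + u y c + x b c + u b' z + u y' c' + x' b' c'`,
`R = x b z₀ + x y c + u b c + x' b' z + x' y' c' + u b' c' + u y z` (triangles).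
Then `A ∪ H = R ∪ H'` (disjoint unions) for a balanced graph `H'` with three arcs less, so an
absorber for `H'` together with `A` is an absorber for `H`.
-/

set_option autoImplicit false
set_option linter.unusedSimpArgs false
open Finset

namespace Pool.Agent.Lib.MP_cb9986_co.SQ

open Pool.Agent.Lib.MP_cb9986_co.S9

section

variable {α : Type} [DecidableEq α]

/-- The union of a list of triangles. -/
def absorbOneU (L : List (α × α × α)) : Finset (Arc α) :=
  L.foldr (fun p s => tri 0 p.1 p.2.1 p.2.2 ∪ s) ∅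

theorem absorbOne_mem (L : List (α × α × α)) (e : Arc α) :
    e ∈ absorbOneU L ↔ ∃ p ∈ L, e ∈ tri 0 p.1 p.2.1 p.2.2 := by
  induction L with
  | nil => simp [absorbOneU]
  | cons p L ih =>
    have h : absorbOneU (p :: L) = tri 0 p.1 p.2.1 p.2.2 ∪ absorbOneU L := rfl
    rw [h, Finset.mem_union, ih]
    simp

/-- Two triangles with at most one common vertex. -/
def absorbOneOk (p q : α × α × α) : Prop :=
  (p.1 = q.1 → p.2.1 ≠ q.2.1) ∧ (p.2.1 = q.2.1 → p.2.2 ≠ q.2.2) ∧ (p.2.2 = q.2.2 → p.1 ≠ q.1)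

theorem absorbOne_disj {p q : α × α × α} (h : absorbOneOk p q) :
    Disjoint (tri 0 p.1 p.2.1 p.2.2) (tri 0 q.1 q.2.1 q.2.2) := by
  obtain ⟨h1, h2, h3⟩ := h
  rw [Finset.disjoint_left]
  intro e he he'
  rw [mem_tri] at he he'
  have n1 : (0 : ZMod 3) ≠ 0 + 1 := by decide
  have n2 : (0 : ZMod 3) ≠ 0 + 2 := by decide
  have n3 : (0 : ZMod 3) + 1 ≠ 0 + 2 := by decide
  rcases he with rfl | rfl | rfl <;> rcases he' with h | h | h <;>
    simp only [Prod.mk.injEq] at h
  · exact h1 h.2.1 h.2.2
  · exact n1 h.1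
  · exact n2 h.1
  · exact n1 h.1.symm
  · exact h2 h.2.1 h.2.2
  · exact n3 h.1
  · exact n2 h.1.symm
  · exact n3 h.1.symm
  · exact h3 h.2.1 h.2.2

theorem absorbOne_card_tri (x u v : α) : (tri 0 x u v).card = 3 := by
  unfold tri
  rw [Finset.card_insert_of_notMem, Finset.card_insert_of_notMem, Finset.card_singleton]
  · rw [Finset.mem_singleton, Prod.mk.injEq]
    rintro ⟨h, -⟩
    exact absurd h (by decide)
  · rw [Finset.mem_insert, Finset.mem_singleton, Prod.mk.injEq, Prod.mk.injEq]
    rintro (⟨h, -⟩ | ⟨h, -⟩)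
    all_goals exact absurd h (by decide)

theorem absorbOne_dec (L : List (α × α × α)) (h : L.Pairwise absorbOneOk) :
    Dec (absorbOneU L) ∧ (absorbOneU L).card = 3 * L.length := by
  induction L with
  | nil => exact ⟨Dec.empty, rfl⟩
  | cons p L ih =>
    rw [List.pairwise_cons] at h
    obtain ⟨h1, h2⟩ := ih h.2
    have e : absorbOneU (p :: L) = tri 0 p.1 p.2.1 p.2.2 ∪ absorbOneU L := rfl
    have hd : Disjoint (tri 0 p.1 p.2.1 p.2.2) (absorbOneU L) := by
      rw [Finset.disjoint_left]
      intro a ha ha'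
      obtain ⟨q, hq, hq'⟩ := (absorbOne_mem L a).1 ha'
      exact (Finset.disjoint_left.1 (absorbOne_disj (h.1 q hq))) ha hq'
    rw [e]
    refine ⟨Dec.add 0 _ _ _ _ h1 hd, ?_⟩
    rw [Finset.card_union_of_disjoint hd, absorbOne_card_tri, h2, List.length_cons,
      Nat.mul_add, Nat.add_comm]

end

/-- The induction. -/
theorem absorbOne_ind {α : Type} [DecidableEq α] [Fintype α] (G : Finset (Arc α)) (f : ℕ)
    (ext : ∀ (i : ZMod 3) (S S' X : Finset α), S.card + S'.card ≤ 4 → X.card ≤ f →
      ∃ w, w ∉ X ∧ (∀ x ∈ S, (i + 2, x, w) ∈ G) ∧ (∀ x ∈ S', (i, w, x) ∈ G)) (m : ℕ) :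
    ∀ (H : Finset (Arc α)) (W : Finset α), H.card ≤ m → Bal H →
      (∀ e ∈ H, e.2.1 ∈ W ∧ e.2.2 ∈ W) → W.card + 2 * H.card + 7 ≤ f →
      ∃ A, A ⊆ G ∧ Dec A ∧ Dec (A ∪ H) ∧ (∀ e ∈ A, e.2.1 ∉ W ∨ e.2.2 ∉ W) ∧
        A.card ≤ 6 * H.card := by
  have a01 : (0 : ZMod 3) + 1 = 1 := by decide
  have a02 : (0 : ZMod 3) + 2 = 2 := by decide
  have a11 : (1 : ZMod 3) + 1 = 2 := by decide
  have a12 : (1 : ZMod 3) + 2 = 0 := by decide
  have a21 : (2 : ZMod 3) + 1 = 0 := by decide
  have a22 : (2 : ZMod 3) + 2 = 1 := by decide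
  induction m with
  | zero =>
    intro H W hH _ _ _
    have : H = ∅ := Finset.card_eq_zero.1 (by omega)
    subst this
    exact ⟨∅, by simp, Dec.empty, by simpa using Dec.empty, by simp, by simp⟩
  | succ m ih =>
    intro H W hHm hbal hW hf
    by_cases hne : H = ∅
    · subst hne
      exact ⟨∅, by simp, Dec.empty, by simpa using Dec.empty, by simp, by simp⟩
    -- following arcs
    have hout : ∀ (i : ZMod 3) (x : α), (∃ w, (i + 2, w, x) ∈ H) → ∃ y, (i, x, y) ∈ H := by
      rintro i x ⟨w, hw⟩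
      have h1 : 0 < (inN H i x).card := Finset.card_pos.2 ⟨w, by simpa using hw⟩
      rw [← hbal i x] at h1
      obtain ⟨y, hy⟩ := Finset.card_pos.1 h1
      exact ⟨y, by simpa using hy⟩
    have hin : ∀ (i : ZMod 3) (x : α), (∃ y, (i, x, y) ∈ H) → ∃ w, (i + 2, w, x) ∈ H := by
      rintro i x ⟨w, hw⟩
      have h1 : 0 < (outN H i x).card := Finset.card_pos.2 ⟨w, by simpa using hw⟩
      rw [hbal i x] at h1
      obtain ⟨y, hy⟩ := Finset.card_pos.1 h1
      exact ⟨y, by simpa using hy⟩
    by_cases htri : ∃ x y z, (0, x, y) ∈ H ∧ (1, y, z) ∈ H ∧ (2, z, x) ∈ H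
    · -- remove a triangle
      obtain ⟨x, y, z, h1, h2, h3⟩ := htri
      have hsub : tri 0 x y z ⊆ H := by
        intro e he
        rw [mem_tri, a01, a02] at he
        rcases he with rfl | rfl | rfl
        exacts [h1, h2, h3]
      have hcard := Finset.card_sdiff_add_card_eq_card hsub
      rw [absorbOne_card_tri] at hcard
      obtain ⟨A, hAG, hA, hAH, hAf, hAc⟩ := ih (H \ tri 0 x y z) W (by omega)
        (hbal.sdiff (bal_tri 0 x y z) hsub) (fun e he => hW e (Finset.sdiff_subset he)) (by omega)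
      refine ⟨A, hAG, hA, ?_, hAf, by omega⟩
      have e : A ∪ H = tri 0 x y z ∪ (A ∪ (H \ tri 0 x y z)) := by
        rw [Finset.union_left_comm, Finset.union_sdiff_of_subset hsub]
      rw [e]
      refine Dec.add 0 x y z _ hAH ?_
      rw [Finset.disjoint_union_right]
      refine ⟨?_, Finset.disjoint_sdiff⟩
      rw [Finset.disjoint_left]
      intro a ha ha'
      have h4 := hW a (hsub ha)
      rcases hAf a ha' with h5 | h5
      · exact h5 h4.1
      · exact h5 h4.2
    -- a path
    have h0 : ∃ x y, (0, x, y) ∈ H := by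
      obtain ⟨⟨i, x, y⟩, he⟩ := Finset.nonempty_iff_ne_empty.2 hne
      have hi : ∀ j : ZMod 3, j = 0 ∨ j = 1 ∨ j = 2 := by decide
      rcases hi i with rfl | rfl | rfl
      · exact ⟨x, y, he⟩
      · obtain ⟨w, hw⟩ := hin 1 x ⟨y, he⟩
        rw [a12] at hw
        exact ⟨w, x, hw⟩
      · obtain ⟨w, hw⟩ := hout 0 y ⟨x, by rw [a02]; exact he⟩
        exact ⟨y, w, hw⟩
    obtain ⟨x, y, hxy⟩ := h0
    obtain ⟨z, hyz⟩ := hout 1 y ⟨x, by rw [a12]; exact hxy⟩
    obtain ⟨x', hzx⟩ := hout 2 z ⟨y, by rw [a22]; exact hyz⟩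
    obtain ⟨y', hxy'⟩ := hout 0 x' ⟨z, by rw [a02]; exact hzx⟩
    obtain ⟨z₀, hz0⟩ := hin 0 x ⟨y, hxy⟩
    rw [a02] at hz0
    have nz : z ≠ z₀ := by
      rintro rfl
      exact htri ⟨x, y, z, hxy, hyz, hz0⟩
    have nx : x ≠ x' := by
      rintro rfl
      exact htri ⟨x, y, z, hxy, hyz, hzx⟩
    have ny : y ≠ y' := by
      rintro rfl
      exact htri ⟨x', y, z, hxy', hyz, hzx⟩
    have wx := (hW _ hxy).1
    have wy := (hW _ hxy).2
    have wz := (hW _ hyz).2
    have wx' := (hW _ hxy').1
    have wy' := (hW _ hxy').2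
    have wz0 := (hW _ hz0).1
    simp only at wx wy wz wx' wy' wz0
    -- new vertices
    obtain ⟨u, hu, hu1, hu2⟩ := ext 0 {z₀, z} {y, y'} W
      (by have := Finset.card_le_two (a := z₀) (b := z); have := Finset.card_le_two (a := y) (b := y'); omega)
      (by omega)
    obtain ⟨b, hb, hb1, hb2⟩ := ext 1 {x, u} {z₀} (insert u W)
      (by have := Finset.card_le_two (a := x) (b := u); simp; omega)
      (by have := Finset.card_insert_le u W; omega)
    obtain ⟨c, hc, hc1, hc2⟩ := ext 2 {y, b} {x, u} (insert b (insert u W))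
      (by have := Finset.card_le_two (a := y) (b := b); have := Finset.card_le_two (a := x) (b := u); omega)
      (by have := Finset.card_insert_le u W; have := Finset.card_insert_le b (insert u W); omega)
    obtain ⟨b', hb', hb1', hb2'⟩ := ext 1 {x', u} {z} (insert c (insert b (insert u W)))
      (by have := Finset.card_le_two (a := x') (b := u); simp; omega)
      (by
        have := Finset.card_insert_le u W
        have := Finset.card_insert_le b (insert u W)
        have := Finset.card_insert_le c (insert b (insert u W))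
        omega)
    obtain ⟨c', hc', hc1', hc2'⟩ := ext 2 {y', b'} {x', u} (insert b' (insert c (insert b (insert u W))))
      (by have := Finset.card_le_two (a := y') (b := b'); have := Finset.card_le_two (a := x') (b := u); omega)
      (by
        have := Finset.card_insert_le u W
        have := Finset.card_insert_le b (insert u W)
        have := Finset.card_insert_le c (insert b (insert u W))
        have := Finset.card_insert_le b' (insert c (insert b (insert u W)))
        omega)
    set W' : Finset α := insert c' (insert b' (insert c (insert b (insert u W)))) with hW'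
    have hW'c : W'.card ≤ W.card + 5 := by
      rw [hW']
      have := Finset.card_insert_le u W
      have := Finset.card_insert_le b (insert u W)
      have := Finset.card_insert_le c (insert b (insert u W))
      have := Finset.card_insert_le b' (insert c (insert b (insert u W)))
      have := Finset.card_insert_le c' (insert b' (insert c (insert b (insert u W))))
      omega
    simp only [Finset.mem_insert, Finset.mem_singleton, forall_eq_or_imp, forall_eq, not_or, a02,
      a12, a22] at hu hu1 hu2 hb hb1 hb2 hc hc1 hc2 hb' hb1' hb2' hc' hc1' hc2'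
    -- inequalities
    have nin : ∀ {s t : α}, s ∈ W → t ∉ W → s ≠ t := fun hs ht h => ht (h ▸ hs)
    have nin' : ∀ {s t : α}, s ∈ W → t ∉ W → t ≠ s := fun hs ht h => ht (h ▸ hs)
    set LA : List (α × α × α) :=
      [(u, b, z₀), (u, y, c), (x, b, c), (u, b', z), (u, y', c'), (x', b', c')] with hLA
    set LR : List (α × α × α) :=
      [(x, b, z₀), (x, y, c), (u, b, c), (x', b', z), (x', y', c'), (u, b', c'), (u, y, z)] with hLR
    have hub : u ∉ W := hu
    have hbW : b ∉ W := hb.2
    have hcW : c ∉ W := hc.2.2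
    have hb'W : b' ∉ W := hb'.2.2.2
    have hc'W : c' ∉ W := hc'.2.2.2.2
    have f1 := nin wx hub
    have f2 := nin wx' hub
    have f3 := nin' wy hbW
    have f4 := nin' wy hb'W
    have f5 := nin' wy' hbW
    have f6 := nin' wy' hb'W
    have f7 := nin' wz hcW
    have f8 := nin' wz hc'W
    have f9 := nin' wz0 hcW
    have f10 := nin' wz0 hc'W
    have g1 : b ≠ b' := fun h => hb'.2.1 h.symm
    have g2 : c ≠ c' := fun h => hc'.2.1 h.symm
    have pA : LA.Pairwise absorbOneOk := by
      simp only [hLA, List.pairwise_cons, List.mem_cons, List.not_mem_nil, or_false,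
        forall_eq_or_imp, forall_eq, absorbOneOk, List.Pairwise.nil, and_true, IsEmpty.forall_iff,
        implies_true]
      refine ⟨⟨?_, ?_, ?_, ?_, ?_⟩, ⟨?_, ?_, ?_, ?_⟩, ⟨?_, ?_, ?_⟩, ⟨?_, ?_⟩, ?_⟩ <;>
        simp [f1, f2, f3, f4, f5, f6, f7, f8, f9, f10, g1, g2, nx, ny, nz, f1.symm, f2.symm,
          f3.symm, f4.symm, f5.symm, f6.symm, f7.symm, f8.symm, f9.symm, f10.symm, g1.symm,
          g2.symm, nx.symm, ny.symm, nz.symm]
    have pR : LR.Pairwise absorbOneOk := by
      simp only [hLR, List.pairwise_cons, List.mem_cons, List.not_mem_nil, or_false,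
        forall_eq_or_imp, forall_eq, absorbOneOk, List.Pairwise.nil, and_true, IsEmpty.forall_iff,
        implies_true]
      refine ⟨⟨?_, ?_, ?_, ?_, ?_, ?_⟩, ⟨?_, ?_, ?_, ?_, ?_⟩, ⟨?_, ?_, ?_, ?_⟩, ⟨?_, ?_, ?_⟩,
        ⟨?_, ?_⟩, ?_⟩ <;>
        simp [f1, f2, f3, f4, f5, f6, f7, f8, f9, f10, g1, g2, nx, ny, nz, f1.symm, f2.symm,
          f3.symm, f4.symm, f5.symm, f6.symm, f7.symm, f8.symm, f9.symm, f10.symm, g1.symm,
          g2.symm, nx.symm, ny.symm, nz.symm]
    obtain ⟨dA, cA⟩ := absorbOne_dec LA pA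
    obtain ⟨dR, cR⟩ := absorbOne_dec LR pR
    have mA : ∀ e, e ∈ absorbOneU LA ↔
        (e = (0, u, b) ∨ e = (1, b, z₀) ∨ e = (2, z₀, u)) ∨
        (e = (0, u, y) ∨ e = (1, y, c) ∨ e = (2, c, u)) ∨
        (e = (0, x, b) ∨ e = (1, b, c) ∨ e = (2, c, x)) ∨
        (e = (0, u, b') ∨ e = (1, b', z) ∨ e = (2, z, u)) ∨
        (e = (0, u, y') ∨ e = (1, y', c') ∨ e = (2, c', u)) ∨
        (e = (0, x', b') ∨ e = (1, b', c') ∨ e = (2, c', x')) := by
      intro e
      rw [absorbOne_mem]
      simp only [hLA, List.mem_cons, List.not_mem_nil, or_false, exists_eq_or_imp,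
        exists_eq_left, mem_tri, a01, a02]
    have mR : ∀ e, e ∈ absorbOneU LR ↔
        (e = (0, x, b) ∨ e = (1, b, z₀) ∨ e = (2, z₀, x)) ∨
        (e = (0, x, y) ∨ e = (1, y, c) ∨ e = (2, c, x)) ∨
        (e = (0, u, b) ∨ e = (1, b, c) ∨ e = (2, c, u)) ∨
        (e = (0, x', b') ∨ e = (1, b', z) ∨ e = (2, z, x')) ∨
        (e = (0, x', y') ∨ e = (1, y', c') ∨ e = (2, c', x')) ∨
        (e = (0, u, b') ∨ e = (1, b', c') ∨ e = (2, c', u)) ∨
        (e = (0, u, y) ∨ e = (1, y, z) ∨ e = (2, z, u)) := by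
      intro e
      rw [absorbOne_mem]
      simp only [hLR, List.mem_cons, List.not_mem_nil, or_false, exists_eq_or_imp,
        exists_eq_left, mem_tri, a01, a02]
    -- membership in `W'`
    have w'u : u ∈ W' := by simp [hW']
    have w'b : b ∈ W' := by simp [hW']
    have w'c : c ∈ W' := by simp [hW']
    have w'b' : b' ∈ W' := by simp [hW']
    have w'c' : c' ∈ W' := by simp [hW']
    have hWW' : W ⊆ W' := by
      intro s hs
      simp [hW', hs]
    have inA : ∀ e ∈ absorbOneU LA, e.2.1 ∈ W' ∧ e.2.2 ∈ W' := by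
      intro e he
      rcases (mA e).1 he with (rfl | rfl | rfl) | (rfl | rfl | rfl) | (rfl | rfl | rfl) |
        (rfl | rfl | rfl) | (rfl | rfl | rfl) | (rfl | rfl | rfl) <;>
      simp only [w'u, w'b, w'c, w'b', w'c', hWW' wx, hWW' wy, hWW' wz, hWW' wx', hWW' wy',
        hWW' wz0, and_self]
    have inR : ∀ e ∈ absorbOneU LR, e.2.1 ∈ W' ∧ e.2.2 ∈ W' := by
      intro e he
      rcases (mR e).1 he with (rfl | rfl | rfl) | (rfl | rfl | rfl) | (rfl | rfl | rfl) |
        (rfl | rfl | rfl) | (rfl | rfl | rfl) | (rfl | rfl | rfl) | (rfl | rfl | rfl) <;>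
      simp only [w'u, w'b, w'c, w'b', w'c', hWW' wx, hWW' wy, hWW' wz, hWW' wx', hWW' wy',
        hWW' wz0, and_self]
    have frA : ∀ e ∈ absorbOneU LA, e.2.1 ∉ W ∨ e.2.2 ∉ W := by
      intro e he
      rcases (mA e).1 he with (rfl | rfl | rfl) | (rfl | rfl | rfl) | (rfl | rfl | rfl) |
        (rfl | rfl | rfl) | (rfl | rfl | rfl) | (rfl | rfl | rfl) <;>
      simp only [hub, hbW, hcW, hb'W, hc'W, not_false_eq_true, true_or, or_true]
    have AG : absorbOneU LA ⊆ G := by
      intro e he
      rcases (mA e).1 he with (rfl | rfl | rfl) | (rfl | rfl | rfl) | (rfl | rfl | rfl) |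
        (rfl | rfl | rfl) | (rfl | rfl | rfl) | (rfl | rfl | rfl)
      · exact hb1.2
      · exact hb2
      · exact hu1.1
      · exact hu2.1
      · exact hc1.1
      · exact hc2.2
      · exact hb1.1
      · exact hc1.2
      · exact hc2.1
      · exact hb1'.2
      · exact hb2'
      · exact hu1.2
      · exact hu2.2
      · exact hc1'.1
      · exact hc2'.2
      · exact hb1'.1
      · exact hc1'.2
      · exact hc2'.1
    have RA : absorbOneU LR ⊆ absorbOneU LA ∪ H := by
      intro e he
      rw [Finset.mem_union, mA]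
      rcases (mR e).1 he with (rfl | rfl | rfl) | (rfl | rfl | rfl) | (rfl | rfl | rfl) |
        (rfl | rfl | rfl) | (rfl | rfl | rfl) | (rfl | rfl | rfl) | (rfl | rfl | rfl)
      · simp
      · simp
      · exact Or.inr hz0
      · exact Or.inr hxy
      · simp
      · simp
      · simp
      · simp
      · simp
      · simp
      · simp
      · exact Or.inr hzx
      · exact Or.inr hxy'
      · simp
      · simp
      · simp
      · simp
      · simp
      · simp
      · exact Or.inr hyz
      · simp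
    have dAH : Disjoint (absorbOneU LA) H := by
      rw [Finset.disjoint_left]
      intro e he he'
      have := hW e he'
      rcases frA e he with h1 | h1
      · exact h1 this.1
      · exact h1 this.2
    set H' : Finset (Arc α) := (absorbOneU LA ∪ H) \ absorbOneU LR with hH'
    have hbal' : Bal H' := (dA.bal.union hbal dAH).sdiff dR.bal RA
    have hcard' : H'.card + 21 = 18 + H.card := by
      have h1 := Finset.card_sdiff_add_card_eq_card RA
      rw [Finset.card_union_of_disjoint dAH, cA, cR] at h1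
      simpa [hLA, hLR] using h1
    have hHsub : ∀ e ∈ H', e.2.1 ∈ W' ∧ e.2.2 ∈ W' := by
      intro e he
      rcases Finset.mem_union.1 (Finset.sdiff_subset he) with h1 | h1
      · exact inA e h1
      · exact ⟨hWW' (hW e h1).1, hWW' (hW e h1).2⟩
    obtain ⟨A, hAG, hA, hAH, hAf, hAc⟩ := ih H' W' (by omega) hbal' hHsub (by omega)
    refine ⟨A ∪ absorbOneU LA, Finset.union_subset hAG AG, ?_, ?_, ?_, ?_⟩
    · refine hA.union dA ?_
      rw [Finset.disjoint_left]
      intro e he he'
      rcases hAf e he with h1 | h1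
      · exact h1 (inA e he').1
      · exact h1 (inA e he').2
    · have e : A ∪ absorbOneU LA ∪ H = (A ∪ H') ∪ absorbOneU LR := by
        rw [Finset.union_assoc, Finset.union_assoc, hH', Finset.sdiff_union_of_subset RA]
      rw [e]
      refine hAH.union dR ?_
      rw [Finset.disjoint_union_left]
      refine ⟨?_, Finset.sdiff_disjoint⟩
      rw [Finset.disjoint_left]
      intro e he he'
      rcases hAf e he with h1 | h1
      · exact h1 (inR e he').1
      · exact h1 (inR e he').2
    · intro e he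
      rcases Finset.mem_union.1 he with h1 | h1
      · rcases hAf e h1 with h2 | h2
        · exact Or.inl fun h => h2 (hWW' h)
        · exact Or.inr fun h => h2 (hWW' h)
      · exact frA e h1
    · have h1 := Finset.card_union_le A (absorbOneU LA)
      rw [cA] at h1
      have h2 : LA.length = 6 := by simp [hLA]
      rw [h2] at h1
      omega

theorem absorbOne : AbsorbOneStmt := by
  intro α _ _ G H W f N hbal hN hW hf ext
  obtain ⟨A, hAG, hA, hAH, hAf, hAc⟩ := absorbOne_ind G f ext H.card H W le_rfl hbal hW (by omega)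
  refine ⟨A, hAG, hA, hAH, ?_, hAf, by omega⟩
  rw [Finset.disjoint_left]
  intro e he he'
  rcases hAf e he with h1 | h1
  · exact h1 (hW e he').1
  · exact h1 (hW e he').2

end Pool.Agent.Lib.MP_cb9986_co.SQ
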