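import Pool.Agent.Lib.MP_cb9986_co.SQ.Spec
import Pool.Agent.Lib.MP_cb9986_co.S9.Cover

/-!
Swarm SQ: the cover-down step at the threshold `3 / 4` (module Cover), see the docstring of
`CoverStmt` in `Spec.lean`. The covering stages (`cover_stageB`) are used from `S9`.
-/

set_option autoImplicit false
open Finset

namespace Pool.Agent.Lib.MP_cb9986_co.SQ

open Pool.Agent.Lib.MP_cb9986_co.S9

/-- numerical facts -/
theorem cover_num {ε : ℝ} {K m n n' : ℕ} (hε : 0 < ε) (hε5 : ε ≤ 1 / 4)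
    (hK : 100 / ε ≤ (K : ℝ)) (hm : 1000 * (K : ℝ) / ε ≤ m) (hn : n ≤ 2 * K * n')
    (hn' : 200 * (m : ℝ) / ε ≤ n') (d Λ : ℕ)
    (hd : d = ⌊2 * (ε / (10 ^ 6 * (K : ℝ) ^ 2 * (m : ℝ) ^ 2)) * n⌋₊)
    (hΛ : Λ = ⌊ε * ((n' : ℝ) / m) / 100⌋₊) :
    0 < Λ ∧ 2 * (d : ℝ) < n' / (4 * (m : ℝ) ^ 2) ∧
    3 * d + Λ + (3 * n * d) / Λ < ⌈(1 / 2 + ε) * ((n' : ℝ) / m)⌉₊ ∧
    ⌊(n' : ℝ) / m⌋₊ + 2 * ⌊2 * (n : ℝ) / (m : ℝ) ^ 2⌋₊ + (6 * d + 2 * Λ) ≤
      2 * ⌈(1 / 2 + ε) * ((n' : ℝ) / m)⌉₊ ∧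
    (d : ℝ) + Λ + 2 * n / m ≤ ε / 2 * n' := by
  have hK400 : (400 : ℝ) ≤ K := by
    have : (400 : ℝ) ≤ 100 / ε := by rw [le_div_iff₀ hε]; linarith
    linarith
  have hKpos : (0 : ℝ) < K := by linarith
  have hmK : 4000 * (K : ℝ) ≤ m := by
    have : 4000 * (K : ℝ) ≤ 1000 * (K : ℝ) / ε := by
      rw [le_div_iff₀ hε]; nlinarith
    linarith
  have hmε : 1000 * (K : ℝ) ≤ ε * m := by
    rw [div_le_iff₀ hε] at hm; linarith
  have hmpos : (0 : ℝ) < m := by linarith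
  have hm1 : (1 : ℝ) ≤ m := by linarith
  have hnR : (n : ℝ) ≤ 2 * K * n' := by exact_mod_cast hn
  have hn'R : 200 * (m : ℝ) ≤ ε * n' := by
    rw [div_le_iff₀ hε] at hn'; linarith
  have hn'pos : (0 : ℝ) < n' := by
    by_contra hcon
    push Not at hcon
    nlinarith
  set x : ℝ := (n' : ℝ) / m with hx
  have hxm : x * m = n' := by rw [hx]; field_simp
  have hx200 : 200 ≤ ε * x := by rw [hx, ← mul_div_assoc, le_div_iff₀ hmpos]; linarith
  have hxpos : 0 < x := by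
    rw [hx]
    positivity
  have hεx : 0 < ε * x := mul_pos hε hxpos
  have hεx4 : ε * x ≤ x / 4 := by nlinarith
  -- bound for d
  set δ : ℝ := 4 * (ε * x) / (10 ^ 6 * K * m) with hδ
  have hdδ : (d : ℝ) ≤ δ := by
    have h1 : (d : ℝ) ≤ 2 * (ε / (10 ^ 6 * (K : ℝ) ^ 2 * (m : ℝ) ^ 2)) * n := by
      rw [hd]; exact Nat.floor_le (by positivity)
    refine h1.trans ?_
    calc 2 * (ε / (10 ^ 6 * (K : ℝ) ^ 2 * (m : ℝ) ^ 2)) * n
        ≤ 2 * (ε / (10 ^ 6 * (K : ℝ) ^ 2 * (m : ℝ) ^ 2)) * (2 * K * n') := by gcongr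
      _ = δ := by rw [hδ, ← hxm]; field_simp; ring
  have hKm : (4 : ℝ) ≤ K * m := by nlinarith
  have hδ1 : δ ≤ ε * x / 10 ^ 6 := by
    rw [hδ, div_le_div_iff₀ (by positivity) (by positivity)]
    nlinarith
  have hδ2 : 2 * δ < x / (4 * m) := by
    rw [hδ, ← mul_div_assoc, div_lt_div_iff₀ (by positivity) (by positivity)]
    have h0 : 0 < x * m := by positivity
    have h1 : ε * x * m ≤ x / 4 * m := mul_le_mul_of_nonneg_right hεx4 hmpos.le
    nlinarith
  have hd0 : (0 : ℝ) ≤ d := Nat.cast_nonneg _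
  -- bounds for Λ
  have hΛ1 : (Λ : ℝ) ≤ ε * x / 100 := by rw [hΛ]; exact Nat.floor_le (by positivity)
  have hΛ2 : ε * x / 200 ≤ Λ := by
    have h1 : ε * x / 100 < (Λ : ℝ) + 1 := by rw [hΛ]; exact Nat.lt_floor_add_one _
    linarith
  have hΛpos : (0 : ℝ) < Λ := by linarith
  -- bound for the quotient
  have hquo : (((3 * n * d) / Λ : ℕ) : ℝ) ≤ 48 / 10 ^ 4 * x := by
    refine Nat.cast_div_le.trans ?_
    rw [div_le_iff₀ hΛpos]
    push_cast
    have h1 : 3 * (n : ℝ) * d ≤ 3 * (2 * K * n') * δ := by gcongr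
    have h2 : 3 * (2 * K * n') * δ = 24 / 10 ^ 6 * (x * (ε * x)) := by
      rw [hδ, ← hxm]; field_simp; ring
    have h3 : 48 / 10 ^ 4 * x * (ε * x / 200) ≤ 48 / 10 ^ 4 * x * (Λ : ℝ) := by gcongr
    nlinarith
  have hceil : (1 / 2 + ε) * x ≤ (⌈(1 / 2 + ε) * x⌉₊ : ℝ) := Nat.le_ceil _
  refine ⟨by exact_mod_cast hΛpos, ?_, ?_, ?_, ?_⟩
  · have : (n' : ℝ) / (4 * (m : ℝ) ^ 2) = x / (4 * m) := by rw [hx]; field_simp
    rw [this]; linarith
  · have h1 : ((3 * d + Λ + (3 * n * d) / Λ : ℕ) : ℝ) < (⌈(1 / 2 + ε) * x⌉₊ : ℝ) := by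
      push_cast
      linarith
    exact_mod_cast h1
  · have h1 : (⌊x⌋₊ : ℝ) ≤ x := Nat.floor_le hxpos.le
    have h2 : (⌊2 * (n : ℝ) / (m : ℝ) ^ 2⌋₊ : ℝ) ≤ 2 * (n : ℝ) / (m : ℝ) ^ 2 :=
      Nat.floor_le (by positivity)
    have h3 : 2 * (n : ℝ) / (m : ℝ) ^ 2 ≤ 4 / 1000 * (ε * x) := by
      rw [div_le_iff₀ (by positivity)]
      have e1 : 2 * (n : ℝ) ≤ 4 * K * (x * m) := by rw [hxm]; linarith
      have h4 : 4 * (K : ℝ) * (x * m) ≤ 4 / 1000 * (ε * m) * (x * m) := by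
        have h5 : 0 ≤ x * m := by positivity
        have h6 : 4 * (K : ℝ) ≤ 4 / 1000 * (ε * m) := by linarith
        exact mul_le_mul_of_nonneg_right h6 h5
      have h5 : 4 / 1000 * (ε * m) * (x * m) = 4 / 1000 * (ε * x) * (m : ℝ) ^ 2 := by ring
      linarith
    have h4 : ((⌊x⌋₊ + 2 * ⌊2 * (n : ℝ) / (m : ℝ) ^ 2⌋₊ + (6 * d + 2 * Λ) : ℕ) : ℝ) ≤
        ((2 * ⌈(1 / 2 + ε) * x⌉₊ : ℕ) : ℝ) := by
      push_cast
      linarith
    exact_mod_cast h4
  · have h1 : 2 * (n : ℝ) / m ≤ 4 / 1000 * ε * n' := by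
      rw [div_le_iff₀ hmpos]
      have h5 : 2 * (n : ℝ) ≤ 4 * K * n' := by linarith
      have h6 : 4 * (K : ℝ) * n' ≤ 4 / 1000 * (ε * m) * n' :=
        mul_le_mul_of_nonneg_right (by linarith) hn'pos.le
      have h7 : 4 / 1000 * (ε * m) * (n' : ℝ) = 4 / 1000 * ε * n' * m := by ring
      linarith
    have h2 : x ≤ ε * n' / 100 := by
      rw [hx, div_le_iff₀ hmpos]
      have h5 : (100 : ℝ) ≤ ε * m := by linarith
      have h6 : 100 * (n' : ℝ) ≤ ε * m * n' := mul_le_mul_of_nonneg_right h5 hn'pos.le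
      have h7 : ε * n' / 100 * (m : ℝ) = ε * m * n' / 100 := by ring
      linarith
    have h3 : 0 < ε * n' := by positivity
    have h4 : ε * x ≤ x := by linarith
    linarith

theorem cover (h1 : BalanceStmt) (h2 : NibStmt) (h3 : CoverOutStmt) (h4 : CoverMixedStmt)
    (h5 : CoverMatchStmt) : CoverStmt := by
  intro ε hε hε5
  obtain ⟨K₀, hK₀⟩ := exists_nat_ge (100 / ε)
  refine ⟨K₀, fun K hK => ?_⟩
  obtain ⟨m₀, hm₀⟩ := exists_nat_ge (1000 * (K : ℝ) / ε)
  refine ⟨m₀, fun m hm => ?_⟩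
  have hKR : 100 / ε ≤ (K : ℝ) := hK₀.trans (by exact_mod_cast hK)
  have hmR : 1000 * (K : ℝ) / ε ≤ m := hm₀.trans (by exact_mod_cast hm)
  have hK400 : (400 : ℝ) ≤ K := by
    have : (400 : ℝ) ≤ 100 / ε := by rw [le_div_iff₀ hε]; linarith
    linarith
  have hKpos : (0 : ℝ) < K := by linarith
  have hKε : 100 ≤ ε * K := by rw [div_le_iff₀ hε] at hKR; linarith
  have hmε : 1000 * (K : ℝ) ≤ ε * m := by rw [div_le_iff₀ hε] at hmR; linarith
  have hmK : 4000 * (K : ℝ) ≤ m := by nlinarith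
  have hmpos : (0 : ℝ) < m := by linarith
  set γ : ℝ := ε / (10 ^ 6 * (K : ℝ) ^ 2 * (m : ℝ) ^ 2) with hγdef
  have hγ : 0 < γ := by positivity
  have hγε : γ ≤ ε / 8 := by
    rw [hγdef]
    refine div_le_div_of_nonneg_left hε.le (by norm_num) ?_
    have h1 : (1 : ℝ) ≤ m := by linarith
    have h2 : (1 : ℝ) ≤ (m : ℝ) ^ 2 := one_le_pow₀ h1
    have h3 : (1 : ℝ) ≤ K := by linarith
    have h4 : (1 : ℝ) ≤ (K : ℝ) ^ 2 := one_le_pow₀ h3
    have h5 : (1 : ℝ) ≤ (K : ℝ) ^ 2 * (m : ℝ) ^ 2 := one_le_mul_of_one_le_of_one_le h4 h2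
    nlinarith
  obtain ⟨ξ, hξ, hbal⟩ := h1 γ hγ
  obtain ⟨n₁, hnib⟩ := h2 (ε / 8) γ (by linarith) hγ
  refine ⟨ξ, hξ, n₁ + 2 * K * ⌈200 * (m : ℝ) / ε⌉₊ + 1, ?_⟩
  intro α _ _ n n' V U P Q G Z G' hn lev hG'G hbG' hIR hdeg'
  have hn' : 200 * (m : ℝ) / ε ≤ n' := by
    have hn'' : ⌈200 * (m : ℝ) / ε⌉₊ ≤ n' := by
      by_contra hcon
      push Not at hcon
      have h1 : n ≤ 2 * K * n' := lev.ge
      have h2 : 2 * K * n' ≤ 2 * K * ⌈200 * (m : ℝ) / ε⌉₊ := Nat.mul_le_mul_left _ hcon.le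
      omega
    exact (Nat.le_ceil _).trans (by exact_mod_cast hn'')
  have hnpos : (0 : ℝ) < n := by
    have : 0 < n := by omega
    exact_mod_cast this
  set d : ℕ := ⌊2 * γ * n⌋₊ with hd
  set Λ : ℕ := ⌊ε * ((n' : ℝ) / m) / 100⌋₊ with hΛ
  obtain ⟨N1, N2, N3, N4, N5⟩ := cover_num hε hε5 hKR hmR lev.ge hn' d Λ hd hΛ
  set R := resv U P Q G with hR
  set I := restr U G with hI
  set G₁ := G' \ (I ∪ R) with hG₁
  have G1G' : G₁ ⊆ G' := Finset.sdiff_subset
  have G1G : G₁ ⊆ G := G1G'.trans hG'G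
  have dG1 : Disjoint G₁ (I ∪ R) := Finset.sdiff_disjoint
  have hKn' : (K : ℝ) * n' ≤ n := by exact_mod_cast lev.le
  have hn'n : (n' : ℝ) ≤ ε / 100 * n := by
    have : (n' : ℝ) * 100 ≤ ε * (K * n') := by
      have : (0 : ℝ) ≤ n' := Nat.cast_nonneg _
      nlinarith
    nlinarith
  have h2nm : 2 * (n : ℝ) / m ≤ ε / 500 * n := by
    rw [div_le_iff₀ hmpos]
    nlinarith
  have hn'm : (n' : ℝ) / m ≤ 2 * n / m := by
    refine div_le_div_of_nonneg_right ?_ hmpos.le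
    have h1 : ε / 100 * (n : ℝ) ≤ n := by nlinarith
    nlinarith
  -- degrees in `I ∪ R`
  have outI : ∀ i x, ((outN I i x).card : ℝ) ≤ n' := by
    intro i x
    rw [← lev.cardU (i + 1)]
    exact_mod_cast Finset.card_le_card fun y hy =>
      (cover_inside_restr U G _ (mem_outN.1 hy)).2
  have inI : ∀ i x, ((inN I i x).card : ℝ) ≤ n' := by
    intro i x
    rw [← lev.cardU (i + 2)]
    exact_mod_cast Finset.card_le_card fun y hy =>
      (cover_inside_restr U G _ (mem_inN.1 hy)).1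
  have degR : ∀ i, ∀ x ∈ V i, ((outN R i x).card : ℝ) ≤ 2 * n / m ∧
      ((inN R i x).card : ℝ) ≤ 2 * n / m := by
    intro i x hx
    by_cases hxU : x ∈ U i
    · exact lev.load i x hxU
    · have := lev.outside i x hx hxU
      exact ⟨this.1.trans hn'm, this.2.trans hn'm⟩
  have outIR : ∀ i, ∀ x ∈ V i, ((outN (I ∪ R) i x).card : ℝ) ≤ ε / 50 * n := by
    intro i x hx
    rw [outN_union]
    have h1 : ((outN I i x ∪ outN R i x).card : ℝ) ≤ (outN I i x).card + (outN R i x).card := by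
      exact_mod_cast Finset.card_union_le _ _
    have h2 := outI i x
    have h3 := (degR i x hx).1
    nlinarith
  have inIR : ∀ i, ∀ x ∈ V i, ((inN (I ∪ R) i x).card : ℝ) ≤ ε / 50 * n := by
    intro i x hx
    rw [inN_union]
    have h1 : ((inN I i x ∪ inN R i x).card : ℝ) ≤ (inN I i x).card + (inN R i x).card := by
      exact_mod_cast Finset.card_union_le _ _
    have h2 := inI i x
    have h3 := (degR i x hx).2
    nlinarith
  -- degrees in `G₁`
  have outG1 : ∀ i, ∀ x ∈ V i, (3 / 4 + ε / 4) * (n : ℝ) ≤ (outN G₁ i x).card := by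
    intro i x hx
    have e1 : ((outN G₁ i x).card : ℝ) + (outN (I ∪ R) i x).card = (outN G' i x).card := by
      exact_mod_cast out_card_sdiff hIR i x
    have e2 : ((outN (G \ G') i x).card : ℝ) + (outN G' i x).card = (outN G i x).card := by
      exact_mod_cast out_card_sdiff hG'G i x
    have e3 := (hdeg' i x).1
    have e4 := (lev.deg i x hx).1
    have e5 := outIR i x hx
    nlinarith
  have inG1 : ∀ i, ∀ x ∈ V i, (3 / 4 + ε / 4) * (n : ℝ) ≤ (inN G₁ i x).card := by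
    intro i x hx
    have e1 : ((inN G₁ i x).card : ℝ) + (inN (I ∪ R) i x).card = (inN G' i x).card := by
      exact_mod_cast in_card_sdiff hIR i x
    have e2 : ((inN (G \ G') i x).card : ℝ) + (inN G' i x).card = (inN G i x).card := by
      exact_mod_cast in_card_sdiff hG'G i x
    have e3 := (hdeg' i x).2
    have e4 := (lev.deg i x hx).2
    have e5 := inIR i x hx
    nlinarith
  -- balancing
  obtain ⟨D, DG1, Ddeg, balG2⟩ := hbal α V n G₁ lev.cardV (cover_inside_mono lev.inside G1G)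
    (by
      intro i x
      have e1 : ((outN G₁ i x).card : ℝ) + (outN (I ∪ R) i x).card = (outN G' i x).card := by
        exact_mod_cast out_card_sdiff hIR i x
      have e2 : ((inN G₁ i x).card : ℝ) + (inN (I ∪ R) i x).card = (inN G' i x).card := by
        exact_mod_cast in_card_sdiff hIR i x
      have e3 : ((outN G' i x).card : ℝ) = (inN G' i x).card := by exact_mod_cast hbG' i x
      have e4 : ((outN G₁ i x).card : ℝ) - (inN G₁ i x).card =
          -(((outN (I ∪ R) i x).card : ℝ) - (inN (I ∪ R) i x).card) := by linarith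
      rw [e4, abs_neg]
      exact lev.near i x)
    (fun i x hx => ⟨by have := outG1 i x hx; nlinarith, by have := inG1 i x hx; nlinarith⟩)
  have G2G : G₁ \ D ⊆ G := Finset.sdiff_subset.trans G1G
  obtain ⟨H₁, H1G2, dec1, H1deg⟩ := hnib α V n (G₁ \ D) (by omega) lev.cardV
    (cover_inside_mono lev.inside G2G) balG2
    (by
      intro i x hx
      have e1 : ((outN (G₁ \ D) i x).card : ℝ) + (outN D i x).card = (outN G₁ i x).card := by
        exact_mod_cast out_card_sdiff DG1 i x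
      have e2 := (Ddeg i x).1
      have e3 := outG1 i x hx
      nlinarith)
  have H1G1 : H₁ ⊆ G₁ := H1G2.trans Finset.sdiff_subset
  have dH1 : Disjoint H₁ (I ∪ R) := Finset.disjoint_of_subset_left H1G1 dG1
  set L := G₁ \ H₁ with hL
  have LG1 : L ⊆ G₁ := Finset.sdiff_subset
  have Ldeg : DegLe L (2 * γ * n) := by
    refine (H1deg.union Ddeg).mono ?_ (by linarith)
    intro e he
    rw [hL, Finset.mem_sdiff] at he
    rw [Finset.mem_union, Finset.mem_sdiff, Finset.mem_sdiff]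
    tauto
  have Ld : ∀ i x, (outN L i x).card ≤ d ∧ (inN L i x).card ≤ d :=
    fun i x => ⟨Nat.le_floor (Ldeg i x).1, Nat.le_floor (Ldeg i x).2⟩
  have LIR : L ∪ (I ∪ R) = G' \ H₁ := by
    ext e
    rw [hL, hG₁, Finset.mem_union, Finset.mem_sdiff, Finset.mem_sdiff, Finset.mem_sdiff]
    constructor
    · rintro (h | h)
      · exact ⟨h.1.1, h.2⟩
      · exact ⟨hIR h, fun h6 => (Finset.disjoint_left.1 dH1) h6 h⟩
    · rintro ⟨h6, h7⟩
      by_cases h : e ∈ I ∪ R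
      · exact Or.inr h
      · exact Or.inl ⟨⟨h6, h⟩, h7⟩
  have hceil : ∀ k : ℕ, (1 / 2 + ε) * ((n' : ℝ) / m) ≤ k →
      ⌈(1 / 2 + ε) * ((n' : ℝ) / m)⌉₊ - d + d ≤ k := by
    intro k hk
    have : ⌈(1 / 2 + ε) * ((n' : ℝ) / m)⌉₊ ≤ k := Nat.ceil_le.2 hk
    omega
  obtain ⟨H', H'sub, dec', H'cov, H'Z, H'deg⟩ := cover_stageB h3 h4 h5 V U P Q G Z L d Λ (3 * n * d)
    (⌈(1 / 2 + ε) * ((n' : ℝ) / m)⌉₊ - d) ⌊2 * (n : ℝ) / (m : ℝ) ^ 2⌋₊ ⌊(n' : ℝ) / m⌋₊
    lev.inside lev.prot (LG1.trans G1G) (Finset.disjoint_of_subset_left LG1 dG1)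
    (by rw [LIR]; exact hbG'.sdiff dec1.bal (H1G1.trans G1G'))
    Ld (cover_card_le V L n d lev.cardV (cover_inside_mono lev.inside (LG1.trans G1G))
      (fun i x => (Ld i x).1)) N1
    (by
      intro i x hx hxU y hy hyU
      have e1 := lev.common i x hx hxU y hy hyU
      have e2 := N2.trans_le e1
      exact_mod_cast e2)
    (fun i x hx hxU u hu => hceil _ (lev.linkOut i x hx hxU u hu))
    (fun i x hx hxU v hv => hceil _ (lev.linkIn i x hx hxU v hv))
    (by omega)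
    (fun i x hx hxU => ⟨Nat.le_floor (lev.outside i x hx hxU).1,
      Nat.le_floor (lev.outside i x hx hxU).2⟩)
    (fun i a b => Nat.le_floor (lev.colour i a b))
    (by omega)
  rw [LIR] at H'sub
  have d1' : Disjoint H₁ H' := by
    rw [Finset.disjoint_left]
    intro e he he'
    have := H'sub he'
    rw [Finset.mem_sdiff] at this
    exact this.2 he
  refine ⟨H₁ ∪ H', ?_, dec1.union dec' d1', ?_, ?_, ?_⟩
  · exact Finset.union_subset (H1G1.trans G1G') (H'sub.trans Finset.sdiff_subset)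
  · intro e he
    rw [Finset.mem_sdiff, Finset.mem_union] at he
    have h6 : e ∈ L ∪ (I ∪ R) := by
      rw [LIR, Finset.mem_sdiff]; tauto
    rw [Finset.mem_union, Finset.mem_union] at h6
    rcases h6 with h | h | h
    · exact absurd (Or.inr (H'cov (Finset.mem_union_left _ h))) he.2
    · exact h
    · exact absurd (Or.inr (H'cov (Finset.mem_union_right _ h))) he.2
  · rw [Finset.disjoint_union_left]
    refine ⟨?_, H'Z⟩
    refine Finset.disjoint_of_subset_right lev.prot ?_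
    exact Finset.disjoint_of_subset_right Finset.subset_union_left dH1
  · have key : (H₁ ∪ H') ∩ I ⊆ H' ∩ I := by
      intro e he
      rw [Finset.mem_inter, Finset.mem_union] at he
      rw [Finset.mem_inter]
      refine ⟨?_, he.2⟩
      rcases he.1 with h | h
      · exact absurd (Finset.mem_union_left _ he.2) ((Finset.disjoint_left.1 dH1) h)
      · exact h
    have hpos : 0 ≤ ε / 2 * (n' : ℝ) := by positivity
    intro i w
    by_cases hw : w ∈ U i
    · have l1 := lev.load i w hw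
      have l2 := H'deg i w
      have c1 : (((outN ((H₁ ∪ H') ∩ I) i w).card : ℕ) : ℝ) ≤ (outN (H' ∩ I) i w).card := by
        exact_mod_cast Finset.card_le_card (outN_mono key i w)
      have c2 : (((inN ((H₁ ∪ H') ∩ I) i w).card : ℕ) : ℝ) ≤ (inN (H' ∩ I) i w).card := by
        exact_mod_cast Finset.card_le_card (inN_mono key i w)
      have c3 : (((outN (H' ∩ I) i w).card : ℕ) : ℝ) ≤ d + Λ + (inN R i w).card := by
        exact_mod_cast l2.1
      have c4 : (((inN (H' ∩ I) i w).card : ℕ) : ℝ) ≤ d + Λ + (outN R i w).card := by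
        exact_mod_cast l2.2
      exact ⟨by linarith [l1.2], by linarith [l1.1]⟩
    · obtain ⟨z1, z2, z3', z4⟩ := z3 i
      have o1 : outN ((H₁ ∪ H') ∩ I) i w = ∅ := by
        rw [Finset.eq_empty_iff_forall_notMem]
        intro y hy
        rw [mem_outN, Finset.mem_inter] at hy
        exact hw (cover_inside_restr U G _ hy.2).1
      have o2 : inN ((H₁ ∪ H') ∩ I) i w = ∅ := by
        rw [Finset.eq_empty_iff_forall_notMem]
        intro y hy
        rw [mem_inN, Finset.mem_inter] at hy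
        have := (cover_inside_restr U G _ hy.2).2
        simp only [z3'] at this
        exact hw this
      rw [o1, o2]
      simpa using hpos

end Pool.Agent.Lib.MP_cb9986_co.SQ
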