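import Pool.Agent.Lib.MP_cb9986_co.S9.Spec

/-!
Swarm SQ, statements of the modules at the threshold `3 / 4`. Goal (`MainStmt`): for every `ε > 0`
every sufficiently large locally balanced tripartite graph of partite minimum degree at least
`(3/4 + ε) n` has a triangle decomposition; hence (`PlsStmt`) partial Latin squares with at most
`(1/4 - ε) n` entries per line are completable for large `n`. Method: iterative absorption, as in
the directory `S9`, from the fractional theorem at the threshold `3/4`.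

Everything that does not depend on the threshold is used from `S9`: `Arc`, `tri`, `Dec`, `restr`,
`Bal`, `DegLe`, `EquitableStmt`, `BalanceStmt`, `Mixed`, `CoverOutStmt`, `CoverMixedStmt`,
`CoverMatchStmt`, `resv`, `SplitStmt`.
-/

set_option autoImplicit false
open Finset

namespace Pool.Agent.Lib.MP_cb9986_co.SQ

open Pool.Agent.Lib.MP_cb9986_co.S9

/-- **Approximate decompositions** on `Fin n`, from the fractional theorem with bounded weights. -/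
def NibFinStmt : Prop :=
  ∀ ε γ : ℝ, 0 < ε → 0 < γ → ∃ n₁ : ℕ, ∀ n : ℕ, n₁ ≤ n → ∀ G : Finset (Arc (Fin n)), Bal G →
    (∀ i x, (3 / 4 + ε) * n ≤ (outN G i x).card) →
    ∃ H, H ⊆ G ∧ Dec H ∧ DegLe (G \ H) (γ * n)

/-- **Approximate decompositions.** From `NibFinStmt` by transport. -/
def NibStmt : Prop :=
  ∀ ε γ : ℝ, 0 < ε → 0 < γ → ∃ n₁ : ℕ, ∀ (α : Type) [DecidableEq α] [Fintype α]
    (V : ZMod 3 → Finset α) (n : ℕ) (G : Finset (Arc α)), n₁ ≤ n → (∀ i, (V i).card = n) →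
    Inside V G → Bal G → (∀ i, ∀ x ∈ V i, (3 / 4 + ε) * n ≤ (outN G i x).card) →
    ∃ H, H ⊆ G ∧ Dec H ∧ DegLe (G \ H) (γ * n)

/-- Structural hypotheses of the cover-down step. `V ⊇ U` current and next vertex sets, `n`, `n'`
their sizes, `G` the original graph on `V`, `Z` a protected set of arcs inside `U`. -/
structure Level {α : Type} [DecidableEq α] [Fintype α] (ε ξ : ℝ) (K m n n' : ℕ)
    (V U : ZMod 3 → Finset α) (P Q : ZMod 3 → α → ℕ) (G Z : Finset (Arc α)) : Prop where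
  cardV : ∀ i, (V i).card = n
  cardU : ∀ i, (U i).card = n'
  sub : ∀ i, U i ⊆ V i
  le : K * n' ≤ n
  ge : n ≤ 2 * K * n'
  inside : Inside V G
  deg : ∀ i, ∀ x ∈ V i, (3 / 4 + ε) * n ≤ (outN G i x).card ∧ (3 / 4 + ε) * n ≤ (inN G i x).card
  prot : Z ⊆ restr U G
  /-- `G[U]` together with the reservoir is nearly balanced -/
  near : ∀ i x, |((outN (restr U G ∪ resv U P Q G) i x).card : ℝ) -
    (inN (restr U G ∪ resv U P Q G) i x).card| ≤ ξ * n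
  /-- common neighbours through the reservoir -/
  common : ∀ i, ∀ x ∈ V i, x ∉ U i → ∀ y ∈ V (i + 1), y ∉ U (i + 1) →
    (n' : ℝ) / (4 * m ^ 2) ≤ ((univ.filter fun w =>
      (i + 1, y, w) ∈ resv U P Q G ∧ (i + 2, w, x) ∈ resv U P Q G).card : ℝ)
  linkOut : ∀ i, ∀ x ∈ V i, x ∉ U i → ∀ u ∈ U (i + 1),
    (1 / 2 + ε) * ((n' : ℝ) / m) ≤ ((univ.filter fun v =>
      (i + 2, v, x) ∈ resv U P Q G ∧ (i + 1, u, v) ∈ restr U G \ Z).card : ℝ)
  linkIn : ∀ i, ∀ x ∈ V i, x ∉ U i → ∀ v ∈ U (i + 2),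
    (1 / 2 + ε) * ((n' : ℝ) / m) ≤ ((univ.filter fun u =>
      (i, x, u) ∈ resv U P Q G ∧ (i + 1, u, v) ∈ restr U G \ Z).card : ℝ)
  outside : ∀ i, ∀ x ∈ V i, x ∉ U i → ((outN (resv U P Q G) i x).card : ℝ) ≤ n' / m ∧
    ((inN (resv U P Q G) i x).card : ℝ) ≤ n' / m
  colour : ∀ i a b, (((V i).filter fun x => x ∉ U i ∧ P i x = a ∧ Q i x = b).card : ℝ) ≤
    2 * n / m ^ 2
  load : ∀ i, ∀ u ∈ U i, ((outN (resv U P Q G) i u).card : ℝ) ≤ 2 * n / m ∧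
    ((inN (resv U P Q G) i u).card : ℝ) ≤ 2 * n / m

/-- **Cover-down step.** From `BalanceStmt`, `NibStmt` (with `ε / 8`), `CoverOutStmt`,
`CoverMixedStmt`, `CoverMatchStmt`, as in `S9`; the room in the matching step is now
`2 (1/2 + ε) - 1 = 2 ε` instead of a constant, so take `m₀ ≥ 10000 K / ε`,
`Λ = ⌊ε n' / (100 m)⌋` (or similar) and `γ` small in terms of `ε`, `K`, `m`. -/
def CoverStmt : Prop :=
  ∀ ε : ℝ, 0 < ε → ε ≤ 1 / 4 → ∃ K₀ : ℕ, ∀ K : ℕ, K₀ ≤ K → ∃ m₀ : ℕ, ∀ m : ℕ, m₀ ≤ m →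
    ∃ ξ : ℝ, 0 < ξ ∧ ∃ n₀ : ℕ, ∀ (α : Type) [DecidableEq α] [Fintype α] (n n' : ℕ)
      (V U : ZMod 3 → Finset α) (P Q : ZMod 3 → α → ℕ) (G Z G' : Finset (Arc α)), n₀ ≤ n →
      Level ε ξ K m n n' V U P Q G Z → G' ⊆ G → Bal G' → restr U G ∪ resv U P Q G ⊆ G' →
      DegLe (G \ G') (ε / 2 * n) →
      ∃ H, H ⊆ G' ∧ Dec H ∧ G' \ H ⊆ restr U G ∧ Disjoint H Z ∧
        DegLe (H ∩ restr U G) (ε / 2 * n')

/-- **Vortex.** From `SplitStmt` and `CoverStmt`. -/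
def VortexStmt : Prop :=
  ∀ ε : ℝ, 0 < ε → ε ≤ 1 / 4 → ∃ M n₀ : ℕ, ∀ (α : Type) [DecidableEq α] [Fintype α] (n : ℕ)
    (V : ZMod 3 → Finset α) (G : Finset (Arc α)), n₀ ≤ n → (∀ i, (V i).card = n) →
    Inside V G → Bal G → (∀ i, ∀ x ∈ V i, (3 / 4 + ε) * n ≤ (outN G i x).card) →
    ∃ U : ZMod 3 → Finset α, (∀ i, (U i).card ≤ M) ∧ ∃ Z, Z ⊆ G ∧ DegLe Z (ε / 10 * n) ∧
      ∀ G', G' ⊆ G → Bal G' → Z ⊆ G' → DegLe (G \ G') (ε / 8 * n) →
        ∃ H, H ⊆ G' ∧ Dec H ∧ G' \ H ⊆ restr U G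

/-- **One absorber.** For a balanced `H` there is a gadget `A` all of whose arcs have a fresh end
(outside `W`), with `A` and `A ∪ H` both decomposable. `G` is the set of available arcs. Every new
vertex is joined to at most four earlier ones. -/
def AbsorbOneStmt : Prop :=
  ∀ (α : Type) [DecidableEq α] [Fintype α] (G H : Finset (Arc α)) (W : Finset α) (f N : ℕ),
    Bal H → H.card ≤ N → (∀ e ∈ H, e.2.1 ∈ W ∧ e.2.2 ∈ W) → W.card + 6 * N + 7 ≤ f →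
    (∀ (i : ZMod 3) (S S' X : Finset α), S.card + S'.card ≤ 4 → X.card ≤ f →
      ∃ w, w ∉ X ∧ (∀ x ∈ S, (i + 2, x, w) ∈ G) ∧ (∀ x ∈ S', (i, w, x) ∈ G)) →
    ∃ A, A ⊆ G ∧ Dec A ∧ Dec (A ∪ H) ∧ Disjoint A H ∧ (∀ e ∈ A, e.2.1 ∉ W ∨ e.2.2 ∉ W) ∧
      A.card ≤ 18 * N

/-- **Absorber for all leftovers.** From `AbsorbOneStmt`. -/
def AbsorbStmt : Prop :=
  ∀ (M : ℕ) (ε : ℝ), 0 < ε → ε ≤ 1 / 4 → ∃ C n₀ : ℕ, ∀ (α : Type) [DecidableEq α] [Fintype α]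
    (n : ℕ) (G Z : Finset (Arc α)) (U : ZMod 3 → Finset α), Fintype.card α = n → n₀ ≤ n →
    (∀ i, (U i).card ≤ M) →
    (∀ i x, (3 / 4 + ε) * n ≤ (outN G i x).card ∧ (3 / 4 + ε) * n ≤ (inN G i x).card) →
    DegLe Z (ε / 10 * n) →
    ∃ A, A ⊆ G ∧ Disjoint A Z ∧ Disjoint A (restr U G) ∧ DegLe A C ∧ Dec A ∧
      ∀ H, H ⊆ restr U G → Bal H → Dec (H ∪ A)

/-- **Main theorem**, from `VortexStmt` and `AbsorbStmt`. -/
def MainStmt : Prop :=
  ∀ ε : ℝ, 0 < ε → ∃ n₀ : ℕ, ∀ n : ℕ, n₀ ≤ n → ∀ G : Finset (Arc (Fin n)), Bal G →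
    (∀ i x, (3 / 4 + ε) * n ≤ (outN G i x).card) → Dec G

/-- **Partial Latin squares**, from `MainStmt`. Arcs: `(0, r, c)` empty cells, `(1, c, s)` symbols
missing in a column, `(2, s, r)` symbols missing in a row. -/
def PlsStmt : Prop :=
  ∀ ε : ℝ, 0 < ε → ∃ n₀ : ℕ, ∀ n : ℕ, n₀ ≤ n → ∀ L : Fin n → Fin n → Option (Fin n),
    (∀ r c c' s, L r c = some s → L r c' = some s → c = c') →
    (∀ r r' c s, L r c = some s → L r' c = some s → r = r') →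
    (∀ r, ((univ.filter fun c => (L r c).isSome).card : ℝ) ≤ (1 / 4 - ε) * n) →
    (∀ c, ((univ.filter fun r => (L r c).isSome).card : ℝ) ≤ (1 / 4 - ε) * n) →
    (∀ s, ((univ.filter fun p : Fin n × Fin n => L p.1 p.2 = some s).card : ℝ) ≤
      (1 / 4 - ε) * n) →
    ∃ M : Fin n → Fin n → Fin n, (∀ r, Function.Injective (M r)) ∧
      (∀ c, Function.Injective fun r => M r c) ∧ ∀ r c s, L r c = some s → M r c = s

end Pool.Agent.Lib.MP_cb9986_co.SQ
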