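import Pool.Agent.Lib.MP_cb9986_co.SQ.NibCore
import Pool.Agent.Lib.MP_cb9986_co.SQ.Spec
import Pool.Agent.Lib.MP_cb9986_co.S9.NibFin

/-!
Approximate decompositions on `Fin n`, from spread fractional decompositions (`FracStmt`).
-/

set_option autoImplicit false
set_option linter.unusedSectionVars false
open Finset

namespace Pool.Agent.Lib.MP_cb9986_co.SQ

open S9

/-- Fractional decompositions with bounded weights at the threshold `3 / 4`. -/
def FracStmt : Prop :=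
  ∀ (n : ℕ) (k b : ℝ) (g0 g1 g2 : W n), Hyp k g0 g1 g2 → 0 < b → 4 * k + 3 * b ≤ n →
    ∃ w : Fin n → Fin n → Fin n → ℝ, IsDecomp g0 g1 g2 w ∧ ∀ x y z, w x y z ≤ 3 / b

section general

variable {α : Type} [DecidableEq α] [Fintype α]

/-- The random greedy algorithm, conclusion. -/
theorem nib_core {γ C : ℝ} (hγ : 0 < γ) (hγ1 : γ ≤ 1 / 10) (hC1 : 1 ≤ C) : ∃ n₁ : ℕ, ∀ n : ℕ, n₁ ≤ n →
    ∀ (G : Finset (Arc (Fin n))) (ω : ZMod 3 → Fin n → Fin n → Fin n → ℝ), Bal G →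
    Wt ω (C / n) → (∀ i x u, (i, x, u) ∈ G → dd ω G i x u = 1) →
    (∀ i x, (7 / 10 : ℝ) * n ≤ (outN G i x).card) →
    ∃ H, H ⊆ G ∧ Dec H ∧ DegLe (G \ H) (3 * γ * n) := by
  obtain ⟨M, hC⟩ : ∃ M : ℝ, M = 12 * Real.exp (300 * C) * 720 / (γ ^ 13) ^ 6 := ⟨_, rfl⟩
  have hCpos : 0 < C := by linarith
  have hγ13 : 0 < γ ^ 13 := by positivity
  refine ⟨⌈M + 100 / γ ^ 13 + (2 * C + 1) ^ 2 + 100000⌉₊ + 1, fun n hn G ω hG hω hdd hdeg => ?_⟩
  have hnR : M + 100 / γ ^ 13 + (2 * C + 1) ^ 2 + 100000 < n := by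
    have h1 := Nat.le_ceil (M + 100 / γ ^ 13 + (2 * C + 1) ^ 2 + 100000)
    have h2 : ((⌈M + 100 / γ ^ 13 + (2 * C + 1) ^ 2 + 100000⌉₊ + 1 : ℕ) : ℝ) ≤ n := by exact_mod_cast hn
    push_cast at h2
    linarith
  have hC0 : 0 < M := by rw [hC]; positivity
  have h100 : 0 < 100 / γ ^ 13 := by positivity
  have hC2 : 0 < (2 * C + 1) ^ 2 := by positivity
  have hn0 : (0 : ℝ) < n := by linarith
  have hnC : M < n := by linarith
  have hnC2 : (2 * C + 1) ^ 2 < n := by linarith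
  have hn100 : 100 < n * γ ^ 13 := by
    have : 100 / γ ^ 13 < n := by linarith
    rwa [div_lt_iff₀ hγ13] at this
  have hn5 : (100000 : ℝ) < n := by linarith
  have hγ13γ : γ ^ 13 ≤ γ := by
    calc γ ^ 13 ≤ γ ^ 1 := pow_le_pow_of_le_one hγ.le (by linarith) (by norm_num)
      _ = γ := pow_one γ
  obtain ⟨N, hN⟩ : ∃ N, N = ∑ x, ∑ u, chi G 0 x u := ⟨_, rfl⟩
  have hcnt : ∀ i, ∑ x, ∑ u, chi G i x u = N := fun i => by rw [cnt_bal hG i, hN]
  have hNl : 7 / 10 * (n : ℝ) * n ≤ N := by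
    rw [hN]
    simp_rw [sum_chi]
    calc 7 / 10 * (n : ℝ) * n = ∑ x : Fin n, 7 / 10 * (n : ℝ) := by
          rw [Finset.sum_const, Finset.card_univ, Fintype.card_fin, nsmul_eq_mul]; ring
      _ ≤ _ := Finset.sum_le_sum fun x _ => hdeg 0 x
  have hNu : N ≤ n * n := by
    rw [hN]
    simp_rw [sum_chi]
    calc ∑ x, ((outN G 0 x).card : ℝ) ≤ ∑ x : Fin n, (n : ℝ) := Finset.sum_le_sum fun x _ => by
          have := Finset.card_le_univ (outN G 0 x)
          rw [Fintype.card_fin] at this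
          exact_mod_cast this
      _ = n * n := by rw [Finset.sum_const, Finset.card_univ, Fintype.card_fin, nsmul_eq_mul]
  have hNn : 70000 * n ≤ N := by nlinarith
  have hN0 : 0 < N := by nlinarith
  obtain ⟨L, hL⟩ : ∃ L, L = Real.sqrt n := ⟨_, rfl⟩
  have hL2 : L ^ 2 = n := by rw [hL]; exact Real.sq_sqrt hn0.le
  have hL0 : 0 < L := by rw [hL]; exact Real.sqrt_pos.2 hn0
  have hL31 : 2 * C + 1 ≤ L := by
    by_contra hc
    push Not at hc
    nlinarith
  have P : Par (Fin n) ω n N γ L C := by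
    refine ⟨hω, hC1, hn0, hN0, hγ, hγ1, hL0, hL2, by simp, ?_, ?_, ?_, by linarith⟩
    · have h1 : 100 < n * γ := lt_of_lt_of_le hn100 (mul_le_mul_of_nonneg_left hγ13γ hn0.le)
      nlinarith
    · rw [div_le_iff₀ hN0]
      have h1 : (n : ℝ) * γ ^ 13 ≤ N * γ ^ 13 :=
        mul_le_mul_of_nonneg_right (by linarith) hγ13.le
      linarith
    · have h1 : 50 / N ≤ 1 / n := by
        rw [div_le_div_iff₀ hN0 hn0]; linarith
      have h2 : L * (50 / N + 2 * C / n) ≤ L * ((2 * C + 1) / n) := by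
        refine mul_le_mul_of_nonneg_left ?_ hL0.le
        have : (2 * C + 1) / (n : ℝ) = 1 / n + 2 * C / n := by ring
        linarith
      refine h2.trans ?_
      rw [← hL2, ← mul_div_assoc, div_le_one (by positivity)]
      nlinarith
  have hE0 : ∀ i x u, (i, x, u) ∈ G → ∀ σ : ℝ, Et ω L (γ ^ 13) G 1 σ i x u =
      Real.exp (-(L * γ ^ 13)) := by
    intro i x u h σ
    unfold Et
    rw [hdd i x u h]
    congr 1; ring
  have hV0 : ∀ i x (σ : ℝ), Vt G n L (γ ^ 13) G 1 σ i x = Real.exp (-(L * γ ^ 13)) := by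
    intro i x σ
    unfold Vt
    congr 1; ring
  have hFF : S9.FF ω G n L (γ ^ 13) G 1 = 6 * (N + n) * Real.exp (-(L * γ ^ 13)) := by
    have h1 : ∀ i, Fe ω L (γ ^ 13) G 1 i = N * (2 * Real.exp (-(L * γ ^ 13))) := by
      intro i
      unfold Fe
      rw [← hcnt i, Finset.sum_mul]
      refine Finset.sum_congr rfl fun x _ => ?_
      rw [Finset.sum_mul]
      refine Finset.sum_congr rfl fun u _ => ?_
      by_cases h : (i, x, u) ∈ G
      · rw [hE0 i x u h, hE0 i x u h, two_mul]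
      · rw [chi_of_not_mem h]; ring
    have h2 : ∀ i, Fv G n L (γ ^ 13) G 1 i = n * (2 * Real.exp (-(L * γ ^ 13))) := by
      intro i
      unfold Fv
      simp_rw [hV0]
      rw [Finset.sum_const, Finset.card_univ, Fintype.card_fin, nsmul_eq_mul]
      ring
    unfold S9.FF
    simp_rw [h1, h2]
    rw [Finset.sum_const, Finset.card_univ, ZMod.card, nsmul_eq_mul]
    push_cast; ring
  have hF : S9.FF ω G n L (γ ^ 13) G 1 * Real.exp (300 * C) < 1 := by
    rw [hFF]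
    have h1 : 6 * (N + n) ≤ 12 * (n : ℝ) ^ 2 := by nlinarith
    have h2 : (L * γ ^ 13) ^ 6 / 720 ≤ Real.exp (L * γ ^ 13) := by
      have := Real.pow_div_factorial_le_exp (L * γ ^ 13) (by positivity) 6
      simpa [Nat.factorial] using this
    have h3 : Real.exp (-(L * γ ^ 13)) ≤ 720 / (L * γ ^ 13) ^ 6 := by
      rw [Real.exp_neg, ← one_div, ← one_div_div ((L * γ ^ 13) ^ 6) 720]
      exact one_div_le_one_div_of_le (by positivity) h2
    have h4 : (L * γ ^ 13) ^ 6 = (n : ℝ) ^ 3 * (γ ^ 13) ^ 6 := by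
      rw [mul_pow, ← hL2]; ring
    rw [h4] at h3
    calc 6 * (N + n) * Real.exp (-(L * γ ^ 13)) * Real.exp (300 * C) ≤
          12 * (n : ℝ) ^ 2 * (720 / ((n : ℝ) ^ 3 * (γ ^ 13) ^ 6)) * Real.exp (300 * C) := by
          gcongr
      _ = M / n := by rw [hC]; field_simp
      _ < 1 := by rwa [div_lt_one hn0]
  obtain ⟨t, ht⟩ : ∃ t : ℕ, t = ⌊(1 - γ) * N⌋₊ := ⟨_, rfl⟩
  have hpos : 0 ≤ (1 - γ) * N := mul_nonneg (by linarith) hN0.le
  have ht1 : (t : ℝ) ≤ (1 - γ) * N := by rw [ht]; exact Nat.floor_le hpos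
  have ht2 : (1 - γ) * N < t + 1 := by rw [ht]; exact Nat.lt_floor_add_one _
  have hp : γ ≤ 1 - t / N := by
    have : (t : ℝ) / N ≤ 1 - γ := by rwa [div_le_iff₀ hN0]
    linarith
  have hp2 : 1 - t / N ≤ γ + 1 / N := by
    have : 1 - γ ≤ (t + 1) / N := by rw [le_div_iff₀ hN0]; linarith
    rw [add_div] at this
    linarith
  obtain ⟨H, hHG, hH, hc, hFH⟩ := nib_iter P hcnt hF t hp
  refine ⟨H, hHG, hH, ?_⟩
  have hlt : S9.FF ω G n L (γ ^ 13) (G \ H) (1 - t / N) < 1 := by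
    refine lt_of_le_of_lt hFH (lt_of_le_of_lt ?_ hF)
    rw [mul_comm (S9.FF ω G n L (γ ^ 13) G 1)]
    refine mul_le_mul_of_nonneg_right ?_ (by rw [hFF]; positivity)
    have h1 : 1 + 300 * C / N ≤ Real.exp (300 * C / N) := by
      have := Real.add_one_le_exp (300 * C / N); linarith
    have h2 := pow_le_pow_left₀ (by positivity) h1 t
    refine h2.trans ?_
    rw [← Real.exp_nat_mul, Real.exp_le_exp]
    calc (t : ℝ) * (300 * C / N) ≤ N * (300 * C / N) :=
          mul_le_mul_of_nonneg_right (by nlinarith) (by positivity)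
      _ = 300 * C := by field_simp
  have hr := FF_rr hL0 hn0 hlt
  obtain ⟨p, hpd⟩ : ∃ p, p = 1 - t / N := ⟨_, rfl⟩
  rw [← hpd] at hr hp hp2
  have hp0 : 0 < p := by linarith
  have hγN : 1 / N ≤ γ := by
    rw [div_le_iff₀ hN0]
    have := P.big1
    linarith
  have hout : ∀ i x, ((outN (G \ H) i x).card : ℝ) ≤ 3 * γ * n := by
    intro i x
    have h1 := (abs_le.1 (hr i x)).2
    have h2 : γ ^ 13 / p ^ 12 ≤ γ := by
      rw [div_le_iff₀ (by positivity)]
      calc γ ^ 13 = γ * γ ^ 12 := by ring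
        _ ≤ γ * p ^ 12 := mul_le_mul_of_nonneg_left (pow_le_pow_left₀ hγ.le hp 12) hγ.le
    have h3 : γ ^ 13 / p ^ 12 * n ≤ γ * n := mul_le_mul_of_nonneg_right h2 hn0.le
    have h4 : ((outN G i x).card : ℝ) ≤ n := by
      have := Finset.card_le_univ (outN G i x)
      rw [Fintype.card_fin] at this
      exact_mod_cast this
    have h5 : p * (outN G i x).card ≤ (2 * γ) * n :=
      mul_le_mul (by linarith) h4 (Nat.cast_nonneg _) (by linarith)
    linarith
  have hbal : Bal (G \ H) := hG.sdiff hH.bal hHG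
  intro i x
  refine ⟨hout i x, ?_⟩
  rw [← hbal i x]
  exact hout i x

end general

/-- The bipartite graphs of a balanced graph. -/
theorem hyp_of_bal {n : ℕ} {k : ℝ} {G : Finset (Arc (Fin n))} (hG : Bal G)
    (hd : ∀ i x, (n : ℝ) - k ≤ (outN G i x).card) :
    Hyp k (chi G 0) (chi G 1) (chi G 2) := by
  have zo : ∀ i x y, chi G i x y = 0 ∨ chi G i x y = 1 := by
    intro i x y
    unfold chi
    split_ifs
    · exact Or.inr rfl
    · exact Or.inl rfl
  have hd' : ∀ i x, (n : ℝ) - k ≤ ∑ y, chi G i x y := by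
    intro i x
    rw [sum_chi]
    exact hd i x
  have e1 : (1 : ZMod 3) + 2 = 0 := by decide
  have e2 : (2 : ZMod 3) + 2 = 1 := by decide
  have e0 : (0 : ZMod 3) + 2 = 2 := by decide
  refine ⟨zo 0, zo 1, zo 2, ?_, ?_, ?_, hd' 0, hd' 1, hd' 2⟩
  · intro x
    have := sum_chi_in G 0 x
    rw [e0] at this
    rw [this, sum_chi, hG 0 x]
  · intro x
    have := sum_chi_in G 1 x
    rw [e1] at this
    rw [this, sum_chi, hG 1 x]
  · intro x
    have := sum_chi_in G 2 x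
    rw [e2] at this
    rw [this, sum_chi, hG 2 x]

theorem nibFin (hFr : FracStmt) : NibFinStmt := by
  intro ε γ hε hγ
  obtain ⟨γ', hγ'⟩ : ∃ γ', γ' = min (γ / 3) (1 / 10) := ⟨_, rfl⟩
  have hγ'0 : 0 < γ' := by rw [hγ']; exact lt_min (by linarith) (by norm_num)
  have hγ'1 : γ' ≤ 1 / 10 := by rw [hγ']; exact min_le_right _ _
  have hγ'2 : 3 * γ' ≤ γ := by
    have : γ' ≤ γ / 3 := by rw [hγ']; exact min_le_left _ _
    linarith
  obtain ⟨C, hC⟩ : ∃ C : ℝ, C = 9 / (4 * ε) + 1 := ⟨_, rfl⟩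
  have h9 : 0 < 9 / (4 * ε) := by positivity
  have hC1 : 1 ≤ C := by rw [hC]; linarith
  obtain ⟨n₁, hn₁⟩ := nib_core hγ'0 hγ'1 hC1
  refine ⟨max n₁ 1, fun n hn G hG hdeg => ?_⟩
  have hn1 : n₁ ≤ n := (le_max_left _ _).trans hn
  have hnpos : 0 < n := lt_of_lt_of_le Nat.one_pos ((le_max_right _ _).trans hn)
  have hnR : (0 : ℝ) < n := by exact_mod_cast hnpos
  have H := hyp_of_bal (k := (1 / 4 - ε) * n) hG (fun i x => by
    have h1 := hdeg i x
    linarith)
  obtain ⟨w, hw, hspread⟩ := hFr n ((1 / 4 - ε) * n) (4 / 3 * ε * n) _ _ _ H (by positivity)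
    (by linarith)
  have hle : 3 / (4 / 3 * ε * n) ≤ C / n := by
    have e : 3 / (4 / 3 * ε * n) = 9 / (4 * ε) / n := by field_simp; ring
    rw [e]
    exact div_le_div_of_nonneg_right (by rw [hC]; linarith) hnR.le
  obtain ⟨ω, hω⟩ : ∃ ω : ZMod 3 → Fin n → Fin n → Fin n → ℝ, ω = fun i a b c =>
    if i = 0 then w a b c else if i = 1 then w c a b else w b c a := ⟨_, rfl⟩
  have ω0 : ∀ a b c, ω 0 a b c = w a b c := by intro a b c; rw [hω]; rfl
  have ω1 : ∀ a b c, ω 1 a b c = w c a b := by intro a b c; rw [hω]; rfl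
  have ω2 : ∀ a b c, ω 2 a b c = w b c a := by intro a b c; rw [hω]; rfl
  have hWt : Wt ω (C / n) := by
    refine ⟨?_, ?_, ?_⟩
    · intro i a b c
      rw [hω]; simp only
      split_ifs <;> exact hw.nonneg _ _ _
    · intro i a b c
      rw [hω]; simp only
      split_ifs <;> exact (hspread _ _ _).trans hle
    · intro i a b c
      have hi : i = 0 ∨ i = 1 ∨ i = 2 := by revert i; decide
      have q0 : (0 : ZMod 3) + 1 = 1 := by decide
      have q1 : (1 : ZMod 3) + 1 = 2 := by decide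
      have q2 : (2 : ZMod 3) + 1 = 0 := by decide
      rcases hi with rfl | rfl | rfl
      · rw [q0, ω0, ω1]
      · rw [q1, ω1, ω2]
      · rw [q2, ω2, ω0]
  have supp : ∀ a b c, w a b c * chi G 0 a b = w a b c ∧ w a b c * chi G 1 b c = w a b c ∧
      w a b c * chi G 2 c a = w a b c := by
    intro a b c
    refine ⟨?_, ?_, ?_⟩
    · rcases H.z0 a b with h | h
      · rw [hw.dead a b c (Or.inl h), zero_mul]
      · rw [h, mul_one]
    · rcases H.z1 b c with h | h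
      · rw [hw.dead a b c (Or.inr (Or.inl h)), zero_mul]
      · rw [h, mul_one]
    · rcases H.z2 c a with h | h
      · rw [hw.dead a b c (Or.inr (Or.inr h)), zero_mul]
      · rw [h, mul_one]
  have hdd : ∀ i x u, (i, x, u) ∈ G → dd ω G i x u = 1 := by
    intro i x u h
    have hi : i = 0 ∨ i = 1 ∨ i = 2 := by clear h; revert i; decide
    have q0 : (0 : ZMod 3) + 1 = 1 := by decide
    have q1 : (1 : ZMod 3) + 1 = 2 := by decide
    have q2 : (2 : ZMod 3) + 1 = 0 := by decide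
    have r0 : (0 : ZMod 3) + 2 = 2 := by decide
    have r1 : (1 : ZMod 3) + 2 = 0 := by decide
    have r2 : (2 : ZMod 3) + 2 = 1 := by decide
    unfold dd
    rcases hi with rfl | rfl | rfl
    · rw [← hw.s0 x u (chi_of_mem h)]
      refine Finset.sum_congr rfl fun v _ => ?_
      rw [ω0, q0, r0, (supp x u v).2.1, (supp x u v).2.2]
    · rw [← hw.s1 x u (chi_of_mem h)]
      refine Finset.sum_congr rfl fun v _ => ?_
      rw [ω1, q1, r1, (supp v x u).2.2, (supp v x u).1]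
    · rw [← hw.s2 x u (chi_of_mem h)]
      refine Finset.sum_congr rfl fun v _ => ?_
      rw [ω2, q2, r2, (supp u v x).1, (supp u v x).2.1]
  have hdeg₁ : ∀ i x, (7 / 10 : ℝ) * n ≤ (outN G i x).card := by
    intro i x
    refine le_trans ?_ (hdeg i x)
    exact mul_le_mul_of_nonneg_right (by linarith) hnR.le
  obtain ⟨H₁, k1, k2, k3⟩ := hn₁ n hn1 G ω hG hWt hdd hdeg₁
  refine ⟨H₁, k1, k2, k3.mono (Finset.Subset.refl _) ?_⟩
  exact mul_le_mul_of_nonneg_right hγ'2 (Nat.cast_nonneg n)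

end Pool.Agent.Lib.MP_cb9986_co.SQ
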