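import Pool.Agent.Lib.MP_cb9986_co.SQ.Spec
import Pool.Agent.Lib.MP_cb9986_co.S9.NibTransport

/-!
Transport of `NibFinStmt` to general vertex sets.
-/

set_option autoImplicit false
open Finset

namespace Pool.Agent.Lib.MP_cb9986_co.SQ

open S9

theorem nibTransport (h : NibFinStmt) : NibStmt := by
  intro ε γ hε hγ
  obtain ⟨n₁, hn₁⟩ := h ε γ hε hγ
  refine ⟨n₁, ?_⟩
  intro α _ _ V n G hn hV hin hbal hdeg
  have e : ∀ i, ({x // x ∈ V i} ≃ Fin n) := fun i =>
    Fintype.equivFinOfCardEq (by rw [Fintype.card_coe, hV i])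
  let g : ZMod 3 → Fin n → α := fun i k => ((e i).symm k : α)
  have hg : ∀ i, Function.Injective (g i) := fun i =>
    Subtype.val_injective.comp (e i).symm.injective
  have hgV : ∀ i k, g i k ∈ V i := fun i k => ((e i).symm k).2
  have hsurj : ∀ i, ∀ x ∈ V i, ∃ k, g i k = x := by
    intro i x hx
    refine ⟨e i ⟨x, hx⟩, ?_⟩
    simp [g]
  set G' : Finset (Arc (Fin n)) := univ.filter fun a => nibTransportMap g a ∈ G with hG'
  have hGG : G'.image (nibTransportMap g) = G := by
    ext ⟨i, x, y⟩
    simp only [Finset.mem_image, hG', Finset.mem_filter, Finset.mem_univ, true_and]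
    constructor
    · rintro ⟨a, ha, hae⟩; rw [← hae]; exact ha
    · intro hxy
      obtain ⟨hx, hy⟩ := hin _ hxy
      obtain ⟨k, hk⟩ := hsurj i x hx
      obtain ⟨l, hl⟩ := hsurj (i + 1) y hy
      refine ⟨(i, k, l), ?_, ?_⟩
      · simp only [nibTransportMap, hk, hl]; exact hxy
      · simp only [nibTransportMap, hk, hl]
  have hbal' : Bal G' := by
    intro i k
    rw [← nibTransport_out hg, ← nibTransport_in hg, hGG]
    exact hbal i _
  have hdeg' : ∀ i x, (3 / 4 + ε) * n ≤ (outN G' i x).card := by
    intro i k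
    rw [← nibTransport_out hg, hGG]
    exact hdeg i _ (hgV i k)
  obtain ⟨H', hH'G, hH'dec, hH'deg⟩ := hn₁ n hn G' hbal' hdeg'
  refine ⟨H'.image (nibTransportMap g), ?_, nibTransport_dec hg hH'dec, ?_⟩
  · rw [← hGG]; exact Finset.image_subset_image hH'G
  · have hsd : G \ H'.image (nibTransportMap g) = (G' \ H').image (nibTransportMap g) := by
      rw [Finset.image_sdiff _ _ (nibTransportMap_injective hg), hGG]
    have h0 : (0 : ℝ) ≤ γ * n := by positivity
    intro i x
    by_cases hx : x ∈ V i
    · obtain ⟨k, rfl⟩ := hsurj i x hx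
      rw [hsd, nibTransport_out hg, nibTransport_in hg]
      exact hH'deg i k
    · have h1 : outN (G \ H'.image (nibTransportMap g)) i x = ∅ := by
        rw [Finset.eq_empty_iff_forall_notMem]
        intro y hy
        rw [mem_outN, Finset.mem_sdiff] at hy
        exact hx (hin _ hy.1).1
      have h2 : inN (G \ H'.image (nibTransportMap g)) i x = ∅ := by
        rw [Finset.eq_empty_iff_forall_notMem]
        intro y hy
        rw [mem_inN, Finset.mem_sdiff] at hy
        have := (hin _ hy.1).2
        rw [(z3 i).2.2.1] at this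
        exact hx this
      rw [h1, h2]
      simpa using h0

end Pool.Agent.Lib.MP_cb9986_co.SQ
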