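import Pool.Agent.Lib.MP_cb9986_co.FNW.Quarter
import Pool.Agent.Lib.MP_cb9986_co.SQ.NibFin
import Pool.Agent.Lib.MP_cb9986_co.SQ.NibTransport

/-!
The fractional theorem at the threshold `3 / 4` (`FNW/Quarter.lean`) and the approximate
decompositions that follow from it.
-/

set_option autoImplicit false
open Finset

namespace Pool.Agent.Lib.MP_cb9986_co.SQ

theorem frac : FracStmt := fun _ _ _ _ _ _ H hb h => quarter_spread H hb h

theorem nib : NibStmt := nibTransport (nibFin frac)

end Pool.Agent.Lib.MP_cb9986_co.SQ
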