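import Pool.Agent.Lib.MP_cb9986_co.SQ.Spec

/-!
Assembly of `MainStmt` (threshold `3 / 4`) from `VortexStmt` and `AbsorbStmt`.
-/

set_option autoImplicit false
open Finset

namespace Pool.Agent.Lib.MP_cb9986_co.SQ

open S9

theorem main (h1 : VortexStmt) (h2 : AbsorbStmt) : MainStmt := by
  intro ε hε
  rcases lt_or_ge (1 / 4 : ℝ) ε with hbig | hsmall
  · -- the hypothesis is void for `n ≥ 1`
    refine ⟨1, fun n hn G _ hdeg => ?_⟩
    exfalso
    have h := hdeg 0 ⟨0, hn⟩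
    have hc : ((outN G 0 (⟨0, hn⟩ : Fin n)).card : ℝ) ≤ n := by
      have := Finset.card_le_univ (outN G 0 (⟨0, hn⟩ : Fin n))
      rw [Fintype.card_fin] at this
      exact_mod_cast this
    have hn' : (1 : ℝ) ≤ n := by exact_mod_cast hn
    nlinarith
  · obtain ⟨M, n₁, hV⟩ := h1 ε hε hsmall
    obtain ⟨C, n₂, hA⟩ := h2 M ε hε hsmall
    refine ⟨max (max n₁ n₂) ⌈8 * (C : ℝ) / ε⌉₊, fun n hn G hG hdeg => ?_⟩
    have hn1 : n₁ ≤ n := le_trans (le_trans (le_max_left _ _) (le_max_left _ _)) hn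
    have hn2 : n₂ ≤ n := le_trans (le_trans (le_max_right _ _) (le_max_left _ _)) hn
    have hn3 : (C : ℝ) ≤ ε / 8 * n := by
      have h3 : (⌈8 * (C : ℝ) / ε⌉₊ : ℝ) ≤ n := by
        exact_mod_cast le_trans (le_max_right _ _) hn
      have h4 := (Nat.le_ceil (8 * (C : ℝ) / ε)).trans h3
      rw [div_le_iff₀ hε] at h4
      linarith
    obtain ⟨U, hU, Z, hZG, hZ, hcov⟩ := hV (Fin n) n (fun _ => univ) G hn1
      (fun i => by simp) (fun e _ => ⟨Finset.mem_univ _, Finset.mem_univ _⟩) hG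
      (fun i x _ => hdeg i x)
    obtain ⟨A, hAG, hAZ, hAU, hAC, hAd, hAabs⟩ := hA (Fin n) n G Z U (Fintype.card_fin n) hn2 hU
      (fun i x => ⟨hdeg i x, by rw [← hG i x]; exact hdeg i x⟩) hZ
    have hAb : Bal A := hAd.bal
    have hG'b : Bal (G \ A) := hG.sdiff hAb hAG
    have hGG : G \ (G \ A) = A := Finset.sdiff_sdiff_eq_self hAG
    obtain ⟨H, hHG', hHd, hrest⟩ := hcov (G \ A) Finset.sdiff_subset hG'b
      (Finset.subset_sdiff.2 ⟨hZG, hAZ.symm⟩)
      (by rw [hGG]; exact hAC.mono (Finset.Subset.refl _) hn3)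
    have hRb : Bal ((G \ A) \ H) := hG'b.sdiff hHd.bal hHG'
    have hRA : Dec ((G \ A) \ H ∪ A) := hAabs _ hrest hRb
    have hdis : Disjoint H ((G \ A) \ H ∪ A) := by
      rw [Finset.disjoint_union_right]
      refine ⟨Finset.disjoint_sdiff, ?_⟩
      exact (Finset.subset_sdiff.1 hHG').2
    have hall : H ∪ ((G \ A) \ H ∪ A) = G := by
      rw [← Finset.union_assoc, Finset.union_sdiff_of_subset hHG',
        Finset.sdiff_union_of_subset hAG]
    rw [← hall]
    exact hHd.union hRA hdis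

end Pool.Agent.Lib.MP_cb9986_co.SQ
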