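import Pool.Agent.Lib.MP_cb9986_co.SQ.VorStep
import Pool.Agent.Lib.MP_cb9986_co.S9.Vortex

/-!
The vortex, at the threshold `3 / 4`.
-/

set_option autoImplicit false
open Finset

namespace Pool.Agent.Lib.MP_cb9986_co.SQ

open Pool.Agent.Lib.MP_cb9986_co.S9

theorem vp_all {K m nc : ℕ} {ε ξ δ₀ B : ℝ} (C : Cst K m ε ξ δ₀ B nc) (hs : SplitStmt)
    (hc : CoverAt ε ξ K m nc) (ℓ : ℕ) : VP K m ε δ₀ B ℓ := by
  induction ℓ with
  | zero => exact vp_zero K m ε δ₀ B C.δ_pos.le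
  | succ ℓ ih => exact vp_succ C hs hc ℓ ih

/-- **The vortex.** -/
theorem vortex (hs : SplitStmt) (hc : CoverStmt) : VortexStmt := by
  intro ε hε hε5
  obtain ⟨K₀, hK₀⟩ := hc (ε / 2) (by linarith) (by linarith)
  obtain ⟨K, hK⟩ : ∃ K : ℕ, K = max K₀ (max 1000 ⌈40 / ε⌉₊) := ⟨_, rfl⟩
  have hKK₀ : K₀ ≤ K := by rw [hK]; exact le_max_left _ _
  have hK1000 : 1000 ≤ K := by rw [hK]; exact (le_max_left _ _).trans (le_max_right _ _)
  have hKε : 40 / ε ≤ K := by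
    refine (Nat.le_ceil _).trans ?_
    rw [hK]; exact_mod_cast (le_max_right _ _).trans (le_max_right _ _)
  obtain ⟨m₀, hm₀⟩ := hK₀ K hKK₀
  obtain ⟨m, hm⟩ : ∃ m : ℕ, m = max m₀ (max 1000 ⌈40 / ε⌉₊) := ⟨_, rfl⟩
  have hmm₀ : m₀ ≤ m := by rw [hm]; exact le_max_left _ _
  have hm1000 : 1000 ≤ m := by rw [hm]; exact (le_max_left _ _).trans (le_max_right _ _)
  have hmε : 40 / ε ≤ m := by
    refine (Nat.le_ceil _).trans ?_
    rw [hm]; exact_mod_cast (le_max_right _ _).trans (le_max_right _ _)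
  obtain ⟨ξ, hξ, nc, hnc⟩ := hm₀ m hmm₀
  have hcov : CoverAt (ε / 2) ξ K m nc := by
    intro α _ _ n n' V U P Q G Z G' h1 h2 h3 h4 h5 h6
    exact hnc α n n' V U P Q G Z G' h1 h2 h3 h4 h5 h6
  have hKR : (1000 : ℝ) ≤ K := by exact_mod_cast hK1000
  have hmR : (1000 : ℝ) ≤ m := by exact_mod_cast hm1000
  have hK0 : (0 : ℝ) < K := by linarith
  have hm0 : (0 : ℝ) < m := by linarith
  obtain ⟨δ₀, hδ₀⟩ : ∃ δ₀ : ℝ, δ₀ = min (min (ε / (8 * K)) (ξ / (14 * K)))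
    (min (ε / 40) (1 / (1000 * K * m ^ 2))) := ⟨_, rfl⟩
  have hδpos : 0 < δ₀ := by
    rw [hδ₀]
    refine lt_min (lt_min ?_ ?_) (lt_min ?_ ?_) <;> positivity
  have hd1 : δ₀ ≤ ε / (8 * K) := by
    rw [hδ₀]; exact (min_le_left _ _).trans (min_le_left _ _)
  have hd2 : δ₀ ≤ ξ / (14 * K) := by
    rw [hδ₀]; exact (min_le_left _ _).trans (min_le_right _ _)
  have hd3 : δ₀ ≤ ε / 40 := by
    rw [hδ₀]; exact (min_le_right _ _).trans (min_le_left _ _)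
  have hd4 : δ₀ ≤ 1 / (1000 * K * m ^ 2) := by
    rw [hδ₀]; exact (min_le_right _ _).trans (min_le_right _ _)
  obtain ⟨M₀, hM₀⟩ : ∃ M₀ : ℝ, M₀ = nc + 4 * (K : ℝ) ^ 2 * m ^ 4 / δ₀ +
    10 ^ 9 * (K : ℝ) ^ 11 * m ^ 20 / δ₀ ^ 6 := ⟨_, rfl⟩
  have hq1 : 0 < 4 * (K : ℝ) ^ 2 * m ^ 4 / δ₀ := by positivity
  have hq2 : 0 < 10 ^ 9 * (K : ℝ) ^ 11 * m ^ 20 / δ₀ ^ 6 := by positivity
  have hnc0 : (0 : ℝ) ≤ nc := Nat.cast_nonneg _
  obtain ⟨B, hB⟩ : ∃ B : ℝ, B = M₀ + 2 * m ^ 2 := ⟨_, rfl⟩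
  have hBM : B - 2 * m ^ 2 = M₀ := by rw [hB]; ring
  have hB0 : 0 < B := by
    have : (0 : ℝ) < 2 * m ^ 2 := by positivity
    rw [hB, hM₀]; linarith
  have hK40 : 1 / (K : ℝ) ≤ ε / 40 := by
    rw [div_le_iff₀ hε] at hKε
    rw [div_le_div_iff₀ hK0 (by norm_num)]
    linarith
  have hm40 : 1 / (m : ℝ) ≤ ε / 40 := by
    rw [div_le_iff₀ hε] at hmε
    rw [div_le_div_iff₀ hm0 (by norm_num)]
    linarith
  have C : Cst K m (ε / 2) ξ δ₀ B nc := by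
    refine ⟨hK1000, hm1000, by linarith, by linarith, by linarith, hδpos, ?_, ?_, ?_, ?_, ?_, ?_⟩
    · linarith
    · rw [le_div_iff₀ (by positivity)] at hd2
      linarith
    · rw [le_div_iff₀ (by positivity)] at hd4
      exact hd4
    · rw [hBM, hM₀]; linarith
    · rw [hBM]
      have h1 : 4 * (K : ℝ) ^ 2 * m ^ 4 / δ₀ ≤ M₀ := by rw [hM₀]; linarith
      rw [div_le_iff₀ hδpos] at h1
      linarith
    · rw [hBM]
      have h1 : 10 ^ 9 * (K : ℝ) ^ 11 * m ^ 20 / δ₀ ^ 6 ≤ M₀ := by rw [hM₀]; linarith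
      rw [div_le_iff₀ (by positivity)] at h1
      linarith
  refine ⟨⌈K * B⌉₊, ⌈B⌉₊, ?_⟩
  intro α _ _ n V G hn hV hin hbal hdeg
  have hnB : B ≤ n := (Nat.le_ceil _).trans (by exact_mod_cast hn)
  have hn0 : (0 : ℝ) < n := by linarith
  have hn1 : 1 ≤ n := by
    have : 0 < n := by exact_mod_cast hn0
    exact this
  obtain ⟨ℓ, hℓ1, hℓ2⟩ := exists_level (K := K) (B := B) (x := n + 2 * m ^ 2) (by linarith) hB0
    (by have : (0 : ℝ) ≤ 2 * m ^ 2 := by positivity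
        linarith)
  have h2l : (0 : ℝ) < 1 / 2 ^ ℓ := by positivity
  have h4K : 4 * K * δ₀ ≤ ε / 2 := by
    rw [le_div_iff₀ (by positivity)] at hd1
    linarith
  have hf : 3 / 4 + (ε / 2 + 4 * K * δ₀ * (1 - 1 / 2 ^ ℓ)) ≤ 3 / 4 + ε := by
    have h1 : 4 * K * δ₀ * (1 - 1 / 2 ^ ℓ) ≤ 4 * K * δ₀ * 1 :=
      mul_le_mul_of_nonneg_left (by linarith) (by positivity)
    linarith
  obtain ⟨U, Z, hZG, hUc, hsp, hdec⟩ := vp_all C hs hcov ℓ α V n G (univ.image V) hV hin hℓ1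
    (by
      intro i x hx
      have h1 := (mul_le_mul_of_nonneg_right hf hn0.le).trans (hdeg i x hx)
      exact ⟨h1, by rw [← hbal i x]; exact h1⟩)
    (by
      intro i x
      rw [hbal i x, sub_self, abs_zero]
      positivity)
    (by
      have h1 : (univ.image V).card ≤ 3 := by
        have := Finset.card_image_le (s := (univ : Finset (ZMod 3))) (f := V)
        rwa [Finset.card_univ, ZMod.card] at this
      nlinarith)
  refine ⟨U, ?_, Z, hZG, ?_, ?_⟩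
  · intro i
    have h1 : (K : ℝ) ^ ℓ * (U i).card ≤ n := by exact_mod_cast hUc i
    have h2 : (K : ℝ) ^ ℓ * (U i).card ≤ K ^ ℓ * (K * B) := by
      have : (0 : ℝ) ≤ 2 * m ^ 2 := by positivity
      calc (K : ℝ) ^ ℓ * (U i).card ≤ n := h1
        _ ≤ K ^ (ℓ + 1) * B := by linarith
        _ = K ^ ℓ * (K * B) := by ring
    have h3 : ((U i).card : ℝ) ≤ K * B := le_of_mul_le_mul_left h2 (by positivity)
    have h4 : ((U i).card : ℝ) ≤ (⌈K * B⌉₊ : ℕ) := h3.trans (Nat.le_ceil _)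
    exact_mod_cast h4
  · have hcoef : (1 / K + 1 / m) * (n : ℝ) + 2 * δ₀ * n ≤ ε / 10 * n := by
      have : (1 / K + 1 / m) * (n : ℝ) + 2 * δ₀ * n = (1 / K + 1 / m + 2 * δ₀) * n := by ring
      rw [this]
      exact mul_le_mul_of_nonneg_right (by linarith) hn0.le
    have hZin : Inside V Z := fun e he => hin e (hZG he)
    intro i x
    constructor
    · have h1 := (hsp (V (i + 1)) (Finset.mem_image_of_mem V (Finset.mem_univ _)) i x).1
        (Finset.Subset.refl _)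
      rw [Finset.inter_eq_left.2 (hZin.out i x), hV] at h1
      exact h1.trans hcoef
    · have h1 := (hsp (V (i + 2)) (Finset.mem_image_of_mem V (Finset.mem_univ _)) i x).2
        (Finset.Subset.refl _)
      rw [Finset.inter_eq_left.2 (hZin.in' i x), hV] at h1
      exact h1.trans hcoef
  · intro G' hG' hbal' hZG' hdl
    exact hdec G' hG' hbal' hZG' (hdl.mono (Finset.Subset.refl _) (by
      exact mul_le_mul_of_nonneg_right (by linarith) hn0.le))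

end Pool.Agent.Lib.MP_cb9986_co.SQ
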