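import Pool.Agent.Lib.MP_cb9986_co.SQ.Pls
import Pool.Agent.Lib.MP_cb9986_co.SQ.Main
import Pool.Agent.Lib.MP_cb9986_co.SQ.Absorb
import Pool.Agent.Lib.MP_cb9986_co.SQ.AbsorbOne
import Pool.Agent.Lib.MP_cb9986_co.SQ.Vortex
import Pool.Agent.Lib.MP_cb9986_co.SQ.Cover
import Pool.Agent.Lib.MP_cb9986_co.SQ.Frac
import Pool.Agent.Lib.MP_cb9986_co.S9.Split
import Pool.Agent.Lib.MP_cb9986_co.S9.Equitable
import Pool.Agent.Lib.MP_cb9986_co.S9.CoverOut
import Pool.Agent.Lib.MP_cb9986_co.S9.CoverMixed
import Pool.Agent.Lib.MP_cb9986_co.S9.CoverMatch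
import Pool.Agent.Lib.MP_cb9986_co.S9.Balance

/-!
Assembly of the swarm SQ: triangle decompositions of locally balanced tripartite graphs of partite
minimum degree at least `(3/4 + ε) n` and completion of partial Latin squares with at most
`(1/4 - ε) n` entries per line.
-/

set_option autoImplicit false
open Finset

namespace Pool.Agent.Lib.MP_cb9986_co.SQ

theorem main_all : MainStmt :=
  main (vortex (S9.split S9.equitable) (cover S9.balance nib S9.CoverOut S9.coverMixed
    S9.coverMatch)) (absorb absorbOne)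

theorem pls_all : PlsStmt := pls main_all

end Pool.Agent.Lib.MP_cb9986_co.SQ
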