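import Pool.Agent.Lib.MP_cb9986_co.SQ.NibStep

/-!
The derandomised random greedy algorithm, for weights at most `C / n`.
-/

set_option autoImplicit false
set_option linter.unusedSectionVars false
open Finset

namespace Pool.Agent.Lib.MP_cb9986_co.SQ

open S9

variable {α : Type} [DecidableEq α] [Fintype α]

theorem av_Fe {ω : ZMod 3 → α → α → α → ℝ} {n N γ L C : ℝ} (P : Par α ω n N γ L C)
    {S : Finset (Arc α)} {p : ℝ} (hp : γ ≤ p - 1 / N) (hp1 : p ≤ 1)
    (hdd : ∀ i x u, (i, x, u) ∈ S → |dd ω S i x u - p ^ 2| ≤ γ ^ 13 / p ^ 10)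
    (hcnt : ∀ i, ∑ x, ∑ u, chi S i x u = N * p) (i : ZMod 3) :
    av ω S (fun S' => Fe ω L (γ ^ 13) S' (p - 1 / N) i) i ≤
      (1 + 300 * C / N) * ww ω S i * Fe ω L (γ ^ 13) S p i := by
  have hE : av ω S (fun S' => Fe ω L (γ ^ 13) S' (p - 1 / N) i) i =
      ∑ x, ∑ u, ∑ a, ∑ b, ∑ c, rho ω S i a b c * (chi (S \ tri i a b c) i x u *
      (Et ω L (γ ^ 13) (S \ tri i a b c) (p - 1 / N) 1 i x u +
      Et ω L (γ ^ 13) (S \ tri i a b c) (p - 1 / N) (-1) i x u)) := by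
    unfold av Fe
    simp only [Finset.mul_sum]
    exact swap5 _
  rw [hE]
  unfold Fe
  rw [Finset.mul_sum]
  refine Finset.sum_le_sum fun x _ => ?_
  rw [Finset.mul_sum]
  refine Finset.sum_le_sum fun u _ => ?_
  by_cases hx : (i, x, u) ∈ S
  · rw [chi_of_mem hx, one_mul, mul_add]
    refine le_trans (le_of_eq ?_) (add_le_add (edge_step P hp hp1 hdd hcnt (Or.inl rfl) hx)
      (edge_step P hp hp1 hdd hcnt (Or.inr rfl) hx))
    simp only [← Finset.sum_add_distrib]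
    exact Finset.sum_congr rfl fun a _ => Finset.sum_congr rfl fun b _ =>
      Finset.sum_congr rfl fun c _ => by ring
  · have h0 : ∀ a b c, chi (S \ tri i a b c) i x u = 0 := by
      intro a b c
      apply chi_of_not_mem
      intro h
      exact hx (Finset.mem_sdiff.1 h).1
    simp only [h0, chi_of_not_mem hx, zero_mul, mul_zero, Finset.sum_const_zero, le_refl]

theorem av_Fv {ω : ZMod 3 → α → α → α → ℝ} {n N γ L C : ℝ} (P : Par α ω n N γ L C)
    {G S : Finset (Arc α)} {p : ℝ} (hp : γ ≤ p - 1 / N) (hp1 : p ≤ 1)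
    (hdd : ∀ i x u, (i, x, u) ∈ S → |dd ω S i x u - p ^ 2| ≤ γ ^ 13 / p ^ 10)
    (hcnt : ∀ i, ∑ x, ∑ u, chi S i x u = N * p) (i : ZMod 3)
    (hr : ∀ x, |((outN S i x).card : ℝ) - p * (outN G i x).card| ≤ γ ^ 13 / p ^ 12 * n) :
    av ω S (fun S' => Fv G n L (γ ^ 13) S' (p - 1 / N) i) i ≤
      (1 + 300 * C / N) * ww ω S i * Fv G n L (γ ^ 13) S p i := by
  have hE : av ω S (fun S' => Fv G n L (γ ^ 13) S' (p - 1 / N) i) i =
      ∑ x, ∑ a, ∑ b, ∑ c, rho ω S i a b c *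
      (Vt G n L (γ ^ 13) (S \ tri i a b c) (p - 1 / N) 1 i x +
      Vt G n L (γ ^ 13) (S \ tri i a b c) (p - 1 / N) (-1) i x) := by
    unfold av Fv
    simp only [Finset.mul_sum]
    exact swap4 _
  rw [hE]
  unfold Fv
  rw [Finset.mul_sum]
  refine Finset.sum_le_sum fun x _ => ?_
  rw [mul_add]
  refine le_trans (le_of_eq ?_) (add_le_add (vertex_step P hp hp1 hdd hcnt (Or.inl rfl) (hr x))
    (vertex_step P hp hp1 hdd hcnt (Or.inr rfl) (hr x)))
  simp only [← Finset.sum_add_distrib]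
  exact Finset.sum_congr rfl fun a _ => Finset.sum_congr rfl fun b _ =>
    Finset.sum_congr rfl fun c _ => by ring

theorem FF_av {ω : ZMod 3 → α → α → α → ℝ} {n N γ L C : ℝ} (P : Par α ω n N γ L C)
    {G S : Finset (Arc α)} {p : ℝ} (hp : γ ≤ p - 1 / N) (hp1 : p ≤ 1)
    (hcnt : ∀ i, ∑ x, ∑ u, chi S i x u = N * p) (hF : FF ω G n L (γ ^ 13) S p < 1) :
    av ω S (fun S' => FF ω G n L (γ ^ 13) S' (p - 1 / N)) 0 ≤
      (1 + 300 * C / N) * ww ω S 0 * FF ω G n L (γ ^ 13) S p := by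
  have hdd : ∀ i x u, (i, x, u) ∈ S → |dd ω S i x u - p ^ 2| ≤ γ ^ 13 / p ^ 10 :=
    fun i x u h => FF_dd P.L_pos hF h
  have hr := FF_rr P.L_pos P.n_pos hF
  unfold FF
  rw [av_sum ω S (fun j S' => Fe ω L (γ ^ 13) S' (p - 1 / N) j + Fv G n L (γ ^ 13) S' (p - 1 / N) j),
    Finset.mul_sum]
  refine Finset.sum_le_sum fun i _ => ?_
  rw [av_add, ← av_eq P.wt S _ i, ← av_eq P.wt S (fun S' => Fv G n L (γ ^ 13) S' (p - 1 / N) i) i,
    mul_add, ← ww_eq P.wt S i]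
  exact add_le_add (av_Fe P hp hp1 hdd hcnt i) (av_Fv P hp hp1 hdd hcnt i (hr i))

theorem ww_pos {ω : ZMod 3 → α → α → α → ℝ} {n N γ L C : ℝ} (P : Par α ω n N γ L C)
    {S : Finset (Arc α)} {p : ℝ} (hp : γ ≤ p) (i : ZMod 3)
    (hdd : ∀ i x u, (i, x, u) ∈ S → |dd ω S i x u - p ^ 2| ≤ γ ^ 13 / p ^ 10)
    (hcnt : ∀ i, ∑ x, ∑ u, chi S i x u = N * p) : 0 < ww ω S i := by
  have hγ := P.γ_pos
  have hp0 : 0 < p := by linarith
  have hW : |ww ω S i - N * p * p ^ 2| ≤ N * p * (γ ^ 13 / p ^ 10) :=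
    ww_close i (fun x u hxu => hdd i x u hxu) (hcnt i)
  refine nib_W_pos P.N_pos hp0 (y := p ^ 2) (by positivity) ?_ hW
  rw [tol10 hγ hp]
  have := tol12 hγ P.γ_le hp
  have hp2 : 0 ≤ p ^ 2 := by positivity
  nlinarith

theorem nib_iter {ω : ZMod 3 → α → α → α → ℝ} {n N γ L C : ℝ} (P : Par α ω n N γ L C)
    {G : Finset (Arc α)} (hcnt : ∀ i, ∑ x, ∑ u, chi G i x u = N)
    (hF : FF ω G n L (γ ^ 13) G 1 * Real.exp (300 * C) < 1) (t : ℕ) (ht : γ ≤ 1 - t / N) :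
    ∃ H, H ⊆ G ∧ Dec H ∧ (∀ i, ∑ x, ∑ u, chi (G \ H) i x u = N * (1 - t / N)) ∧
      FF ω G n L (γ ^ 13) (G \ H) (1 - t / N) ≤
        (1 + 300 * C / N) ^ t * FF ω G n L (γ ^ 13) G 1 := by
  have hN := P.N_pos
  have hC0 : 0 < C := by linarith [P.C_ge]
  have hN1 : 0 < 1 / N := by positivity
  induction t with
  | zero =>
    refine ⟨∅, Finset.empty_subset _, Dec.empty, ?_, ?_⟩
    · intro i; simp [hcnt]
    · simp
  | succ t ih =>
    have e : (1 : ℝ) - ((t + 1 : ℕ) : ℝ) / N = 1 - t / N - 1 / N := by push_cast; ring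
    rw [e] at ht ⊢
    obtain ⟨H, hHG, hH, hc, hFF⟩ := ih (by linarith)
    have hp1 : (1 : ℝ) - t / N ≤ 1 := by
      have : 0 ≤ (t : ℝ) / N := by positivity
      linarith
    have hF0 : 0 ≤ FF ω G n L (γ ^ 13) G 1 := Finset.sum_nonneg fun i _ =>
      add_nonneg (Fe_nonneg _ _ _ _ _ _) (Fv_nonneg _ _ _ _ _ _ _)
    have hpow : (1 + 300 * C / N) ^ t ≤ Real.exp (300 * C) := by
      have h1 : 1 + 300 * C / N ≤ Real.exp (300 * C / N) := by
        have := Real.add_one_le_exp (300 * C / N); linarith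
      have h2 := pow_le_pow_left₀ (by positivity) h1 t
      refine h2.trans ?_
      rw [← Real.exp_nat_mul, Real.exp_le_exp]
      have h3 : (t : ℝ) ≤ N := by
        have h4 : (t : ℝ) / N ≤ 1 := by linarith [P.γ_pos]
        rwa [div_le_one hN] at h4
      calc (t : ℝ) * (300 * C / N) ≤ N * (300 * C / N) :=
            mul_le_mul_of_nonneg_right h3 (by positivity)
        _ = 300 * C := by field_simp
    have hFlt : FF ω G n L (γ ^ 13) (G \ H) (1 - t / N) < 1 := by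
      refine lt_of_le_of_lt hFF (lt_of_le_of_lt ?_ hF)
      rw [mul_comm (FF ω G n L (γ ^ 13) G 1)]
      exact mul_le_mul_of_nonneg_right hpow hF0
    have hav := FF_av P ht hp1 hc hFlt
    have hW := ww_pos P (S := G \ H) (p := 1 - t / N) (by linarith) 0
      (fun i x u h => FF_dd P.L_pos hFlt h) hc
    obtain ⟨a, b, c, htri, hΦ⟩ := exists_tri P.wt (B := (1 + 300 * C / N) *
      FF ω G n L (γ ^ 13) (G \ H) (1 - t / N)) hW (hav.trans (le_of_eq (by ring)))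
    have hdisj : Disjoint (tri 0 a b c) H := by
      rw [Finset.disjoint_left]
      intro e he
      exact (Finset.mem_sdiff.1 (htri he)).2
    have hset : G \ (tri 0 a b c ∪ H) = (G \ H) \ tri 0 a b c := by
      ext e; simp only [Finset.mem_sdiff, Finset.mem_union]; tauto
    refine ⟨tri 0 a b c ∪ H, Finset.union_subset (htri.trans Finset.sdiff_subset) hHG,
      Dec.add 0 a b c H hH hdisj, ?_, ?_⟩
    · intro i
      rw [hset, cnt_sdiff htri, hc]
      field_simp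
    · rw [hset]
      refine hΦ.trans ?_
      rw [pow_succ (1 + 300 * C / N) t, mul_comm ((1 + 300 * C / N) ^ t), mul_assoc]
      exact mul_le_mul_of_nonneg_left hFF (by positivity)

end Pool.Agent.Lib.MP_cb9986_co.SQ
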