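import Pool.Agent.Lib.MP_cb9986_co.S9.NibCore

/-!
One step of the derandomised random greedy algorithm, for weights at most `C / n`
(`S9/NibStep.lean` is the case `C = 15`).
-/

set_option autoImplicit false
set_option linter.unusedSectionVars false
open Finset

namespace Pool.Agent.Lib.MP_cb9986_co.SQ

open S9

variable {α : Type} [DecidableEq α] [Fintype α]

/-- parameters -/
structure Par (α : Type) [Fintype α] (ω : ZMod 3 → α → α → α → ℝ) (n N γ L C : ℝ) : Prop where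
  wt : Wt ω (C / n)
  C_ge : 1 ≤ C
  n_pos : 0 < n
  N_pos : 0 < N
  γ_pos : 0 < γ
  γ_le : γ ≤ 1 / 10
  L_pos : 0 < L
  L_sq : L ^ 2 = n
  card : (Fintype.card α : ℝ) = n
  big1 : 24 ≤ N * γ
  big2 : 1 / N ≤ 2 * γ ^ 13
  big3 : L * (50 / N + 2 * C / n) ≤ 1
  big4 : 3000 * n ≤ N

theorem edge_step {ω : ZMod 3 → α → α → α → ℝ} {n N γ L C : ℝ} (P : Par α ω n N γ L C)
    {S : Finset (Arc α)} {p : ℝ} (hp : γ ≤ p - 1 / N) (hp1 : p ≤ 1)
    (hdd : ∀ i x u, (i, x, u) ∈ S → |dd ω S i x u - p ^ 2| ≤ γ ^ 13 / p ^ 10)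
    (hcnt : ∀ i, ∑ x, ∑ u, chi S i x u = N * p) {σ : ℝ} (hσ : σ = 1 ∨ σ = -1)
    {i : ZMod 3} {x u : α} (h : (i, x, u) ∈ S) :
    ∑ a, ∑ b, ∑ c, rho ω S i a b c * (chi (S \ tri i a b c) i x u *
      Et ω L (γ ^ 13) (S \ tri i a b c) (p - 1 / N) σ i x u) ≤
      (1 + 300 * C / N) * ww ω S i * Et ω L (γ ^ 13) S p σ i x u := by
  obtain ⟨hω, hC, hn, hN, hγ, hγ1, hL, hL2, hcard, b1, b2, b3, b4⟩ := P
  have hN1 : 0 < 1 / N := by positivity
  have hpγ : γ ≤ p := by linarith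
  have hp0 : 0 < p := by linarith
  have hp'0 : 0 < p - 1 / N := by linarith
  obtain ⟨θ, hθ⟩ : ∃ θ, θ = γ ^ 13 / p ^ 10 := ⟨_, rfl⟩
  obtain ⟨θ', hθ'⟩ : ∃ θ', θ' = γ ^ 13 / (p - 1 / N) ^ 10 := ⟨_, rfl⟩
  obtain ⟨δ, hδ⟩ : ∃ δ, δ = p ^ 2 - (p - 1 / N) ^ 2 := ⟨_, rfl⟩
  obtain ⟨W, hWd⟩ : ∃ W, W = ww ω S i := ⟨_, rfl⟩
  obtain ⟨A, hAd⟩ : ∃ A, A = ∑ a, ∑ b, ∑ c, rho ω S i a b c * dec ω S i x u a b c := ⟨_, rfl⟩
  have hdd' := hdd
  rw [← hθ] at hdd'
  have hW : |W - N * p * p ^ 2| ≤ N * p * θ := by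
    rw [hWd]; exact ww_close i (fun x u hxu => hdd' i x u hxu) (hcnt i)
  have hA : |A - 2 * p ^ 2 * dd ω S i x u| ≤ 2 * θ * dd ω S i x u := by
    rw [hAd]; exact dec_close hω hdd' i x u
  have hθ0 : 0 < θ := by rw [hθ]; positivity
  have hθ10 : 10 * θ ≤ p ^ 2 := by
    rw [hθ, tol10 hγ hpγ]
    have := tol12 hγ hγ1 hpγ
    have hp2 : 0 ≤ p ^ 2 := by positivity
    nlinarith
  have hθp : θ / p ≤ 1 := by
    have := tol_le hγ hpγ hp1 (k := 11) (by norm_num)
    have e : θ / p = γ ^ 13 / p ^ 11 := by rw [hθ]; field_simp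
    rw [e]; exact this
  have hg1 : 10 * θ / (N * p) ≤ θ' - θ := by
    have := growth_ge 10 (θ0 := γ ^ 13) hN (by positivity) hp'0
    rw [hθ, hθ']
    simpa using this
  have hNγ : N * γ ≤ N * p := mul_le_mul_of_nonneg_left hpγ hN.le
  have hg2 : θ' - θ ≤ 40 / N := by
    have h2 : 1 / N ≤ p / 2 := by
      rw [div_le_div_iff₀ hN (by norm_num)]; linarith
    have h3 : ((10 : ℕ) : ℝ) * (2 / (N * p)) ≤ 1 := by
      rw [← mul_div_assoc, div_le_one (by positivity)]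
      push_cast; linarith
    have := growth_le 10 (θ0 := γ ^ 13) hN (by positivity) hp0 h2 h3
    rw [← hθ, ← hθ'] at this
    refine this.trans ?_
    push_cast
    have e : 4 * 10 * θ / (N * p) = 40 / N * (θ / p) := by field_simp; norm_num
    rw [e]
    calc 40 / N * (θ / p) ≤ 40 / N * 1 := mul_le_mul_of_nonneg_left hθp (by positivity)
      _ = 40 / N := mul_one _
  have hsmall : p / N ≤ 2 * θ := by
    have h1 : p / N ≤ 1 / N := div_le_div_of_nonneg_right hp1 hN.le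
    have h2 : γ ^ 13 ≤ θ := by
      rw [hθ, le_div_iff₀ (by positivity)]
      have : p ^ 10 ≤ 1 := pow_le_one₀ hp0.le hp1
      calc γ ^ 13 * p ^ 10 ≤ γ ^ 13 * 1 := mul_le_mul_of_nonneg_left this (by positivity)
        _ = γ ^ 13 := mul_one _
    linarith
  have hdrift : |A - δ * W| ≤ (θ' - θ) * W :=
    drift_edge hN hp0 rfl hθ0 hθ10 (hdd' i x u h) hW hA hg1 hsmall hδ
  have hWpos : 0 < W := nib_W_pos hN hp0 (by positivity) hθ10 hW
  have hδ0 : 0 ≤ δ := by
    rw [hδ]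
    have : (p - 1 / N) ^ 2 ≤ p ^ 2 := pow_le_pow_left₀ hp'0.le (by linarith) 2
    linarith
  have hδ2 : δ ≤ 2 / N := by
    have e : δ = 2 * p * (1 / N) - (1 / N) ^ 2 := by rw [hδ]; ring
    rw [e]
    have h1 : 0 ≤ (1 / N) ^ 2 := by positivity
    have h2 : 2 * p * (1 / N) ≤ 2 * 1 * (1 / N) := by
      refine mul_le_mul_of_nonneg_right (by linarith) hN1.le
    have e2 : 2 / N = 2 * 1 * (1 / N) := by ring
    linarith
  have hg0 : 0 ≤ θ' - θ := le_trans (by positivity) hg1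
  -- the exponents
  obtain ⟨w, hw⟩ : ∃ w : α → α → α → ℝ, w = fun a b c =>
    L * (σ * (δ - dec ω S i x u a b c) - (θ' - θ)) := ⟨_, rfl⟩
  have hdec0 := fun a b c => dec_nonneg hω S i x u a b c
  have hdec1 := fun a b c => dec_le hω S i x u a b c
  have hw1 : ∀ a b c, |w a b c| ≤ 1 := by
    intro a b c
    rw [hw]
    simp only
    have h0 := hdec0 a b c
    have h1 := hdec1 a b c
    have e1 : 2 / N + 40 / N ≤ 50 / N := by
      rw [← add_div]; exact div_le_div_of_nonneg_right (by norm_num) hN.le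
    have e2 : 2 * (C / n) = 2 * C / n := by ring
    rw [abs_mul, abs_of_pos hL]
    refine le_trans (mul_le_mul_of_nonneg_left ?_ hL.le) b3
    rcases hσ with rfl | rfl <;> rw [abs_le] <;> constructor <;> linarith
  have hsum1 : ∑ a, ∑ b, ∑ c, rho ω S i a b c * w a b c ≤ 0 := by
    have e : ∀ a b c, rho ω S i a b c * w a b c =
        rho ω S i a b c * (L * (σ * δ - (θ' - θ)) * 1 + (-(L * σ)) * dec ω S i x u a b c) := by
      intro a b c; rw [hw]; ring
    simp_rw [e]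
    rw [sum3_const_mul (rho ω S i) (fun _ _ _ => 1) (dec ω S i x u)]
    simp only [mul_one]
    rw [← hAd]
    change L * (σ * δ - (θ' - θ)) * ww ω S i + _ ≤ 0
    rw [← hWd]
    obtain ⟨d1, d2⟩ := abs_le.1 hdrift
    have : L * (σ * δ - (θ' - θ)) * W + -(L * σ) * A =
        L * (-σ * (A - δ * W) - (θ' - θ) * W) := by ring
    rw [this]
    have h2 : -σ * (A - δ * W) - (θ' - θ) * W ≤ 0 := by
      rcases hσ with rfl | rfl <;> linarith
    exact mul_nonpos_of_nonneg_of_nonpos hL.le h2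
  have hsum2 : ∑ a, ∑ b, ∑ c, rho ω S i a b c * w a b c ^ 2 ≤
      300 * C / N * ∑ a, ∑ b, ∑ c, rho ω S i a b c := by
    change _ ≤ 300 * C / N * ww ω S i
    rw [← hWd]
    have hσ2 : σ ^ 2 = 1 := by rcases hσ with rfl | rfl <;> norm_num
    have e : ∀ a b c, rho ω S i a b c * w a b c ^ 2 ≤
        rho ω S i a b c * (3 * n * (δ ^ 2 + (θ' - θ) ^ 2) * 1 +
          (3 * n * (2 * C / n)) * dec ω S i x u a b c) := by
      intro a b c
      refine mul_le_mul_of_nonneg_left ?_ (rho_nonneg hω _ _ _ _ _)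
      rw [hw]
      have h0 := hdec0 a b c
      have h1 := hdec1 a b c
      have h3 := sq3 (σ * δ) (σ * dec ω S i x u a b c) (θ' - θ)
      have h4 : dec ω S i x u a b c ^ 2 ≤ 2 * C / n * dec ω S i x u a b c := by
        rw [sq]
        refine mul_le_mul_of_nonneg_right ?_ h0
        have e2 : 2 * (C / n) = 2 * C / n := by ring
        linarith
      calc (L * (σ * (δ - dec ω S i x u a b c) - (θ' - θ))) ^ 2 =
            n * (σ * δ - σ * dec ω S i x u a b c - (θ' - θ)) ^ 2 := by rw [← hL2]; ring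
        _ ≤ n * (3 * ((σ * δ) ^ 2 + (σ * dec ω S i x u a b c) ^ 2 + (θ' - θ) ^ 2)) :=
            mul_le_mul_of_nonneg_left h3 hn.le
        _ = 3 * n * (δ ^ 2 + (θ' - θ) ^ 2) * 1 + 3 * n * dec ω S i x u a b c ^ 2 := by
            rw [mul_pow, mul_pow, hσ2]; ring
        _ ≤ _ := by
            have : 3 * n * dec ω S i x u a b c ^ 2 ≤
                3 * n * (2 * C / n * dec ω S i x u a b c) :=
              mul_le_mul_of_nonneg_left h4 (by positivity)
            linarith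
    have h5 : ∑ a, ∑ b, ∑ c, rho ω S i a b c * w a b c ^ 2 ≤
        ∑ a, ∑ b, ∑ c, rho ω S i a b c * (3 * n * (δ ^ 2 + (θ' - θ) ^ 2) * 1 +
          (3 * n * (2 * C / n)) * dec ω S i x u a b c) :=
      Finset.sum_le_sum fun a _ => Finset.sum_le_sum fun b _ =>
        Finset.sum_le_sum fun c _ => e a b c
    refine h5.trans ?_
    rw [sum3_const_mul (rho ω S i) (fun _ _ _ => 1) (dec ω S i x u)]
    simp only [mul_one]
    rw [← hAd]
    change 3 * n * (δ ^ 2 + (θ' - θ) ^ 2) * ww ω S i + _ ≤ _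
    rw [← hWd]
    have hA2 : A ≤ 42 / N * W := by
      have h6 := (abs_le.1 hdrift).2
      have h7 : (δ + (θ' - θ)) * W ≤ 42 / N * W := by
        refine mul_le_mul_of_nonneg_right ?_ hWpos.le
        have : (42 : ℝ) / N = 2 / N + 40 / N := by ring
        linarith
      linarith
    have e3 : 3 * n * (2 * C / n) = 6 * C := by field_simp; norm_num
    rw [e3]
    have h8 : δ ^ 2 + (θ' - θ) ^ 2 ≤ (2 / N) ^ 2 + (40 / N) ^ 2 :=
      add_le_add (pow_le_pow_left₀ hδ0 hδ2 2) (pow_le_pow_left₀ hg0 hg2 2)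
    have h9 : 3 * n * (δ ^ 2 + (θ' - θ) ^ 2) ≤ 2 / N := by
      calc 3 * n * (δ ^ 2 + (θ' - θ) ^ 2) ≤ 3 * n * ((2 / N) ^ 2 + (40 / N) ^ 2) :=
            mul_le_mul_of_nonneg_left h8 (by positivity)
        _ = 4812 * n / (N * N) := by ring
        _ ≤ 2 / N := by
            rw [div_le_div_iff₀ (by positivity) hN]
            nlinarith [mul_pos hN hN]
    have h10 : 3 * n * (δ ^ 2 + (θ' - θ) ^ 2) * W ≤ 2 / N * W :=
      mul_le_mul_of_nonneg_right h9 hWpos.le
    have h11 : 300 * C / N * W = 2 / N * W + 6 * C * (42 / N * W) +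
        (48 * C - 2) * (1 / N * W) := by ring
    have h12 : 0 ≤ 1 / N * W := by positivity
    have h13 : 0 ≤ (48 * C - 2) * (1 / N * W) := mul_nonneg (by linarith) h12
    have h14 : 6 * C * A ≤ 6 * C * (42 / N * W) := mul_le_mul_of_nonneg_left hA2 (by linarith)
    linarith
  have hmain := exp_sum3 (rho ω S i) w (rho_nonneg hω S i) hw1 hsum1 (300 * C / N) hsum2
  change _ ≤ (1 + 300 * C / N) * ww ω S i at hmain
  have hE : 0 < Et ω L (γ ^ 13) S p σ i x u := Real.exp_pos _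
  have hterm : ∀ a b c, rho ω S i a b c * (chi (S \ tri i a b c) i x u *
      Et ω L (γ ^ 13) (S \ tri i a b c) (p - 1 / N) σ i x u) ≤
      rho ω S i a b c * Real.exp (w a b c) * Et ω L (γ ^ 13) S p σ i x u := by
    intro a b c
    rw [mul_assoc]
    refine mul_le_mul_of_nonneg_left ?_ (rho_nonneg hω _ _ _ _ _)
    rw [chi_sdiff0]
    by_cases hab : x = a ∧ u = b
    · rw [if_pos hab, zero_mul]
      exact mul_nonneg (Real.exp_pos _).le hE.le
    · rw [if_neg hab, chi_of_mem h, one_mul]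
      refine le_of_eq ?_
      unfold Et
      rw [← Real.exp_add, dd_sdiff S i hab, hw, ← hθ, ← hθ', hδ]
      congr 1
      ring
  calc _ ≤ ∑ a, ∑ b, ∑ c, rho ω S i a b c * Real.exp (w a b c) * Et ω L (γ ^ 13) S p σ i x u :=
        Finset.sum_le_sum fun a _ => Finset.sum_le_sum fun b _ =>
          Finset.sum_le_sum fun c _ => hterm a b c
    _ = (∑ a, ∑ b, ∑ c, rho ω S i a b c * Real.exp (w a b c)) * Et ω L (γ ^ 13) S p σ i x u := by
        simp only [Finset.sum_mul]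
    _ ≤ _ := mul_le_mul_of_nonneg_right hmain hE.le

theorem vertex_step {ω : ZMod 3 → α → α → α → ℝ} {n N γ L C : ℝ} (P : Par α ω n N γ L C)
    {G S : Finset (Arc α)} {p : ℝ} (hp : γ ≤ p - 1 / N) (hp1 : p ≤ 1)
    (hdd : ∀ i x u, (i, x, u) ∈ S → |dd ω S i x u - p ^ 2| ≤ γ ^ 13 / p ^ 10)
    (hcnt : ∀ i, ∑ x, ∑ u, chi S i x u = N * p) {σ : ℝ} (hσ : σ = 1 ∨ σ = -1)
    {i : ZMod 3} {x : α}
    (hr : |((outN S i x).card : ℝ) - p * (outN G i x).card| ≤ γ ^ 13 / p ^ 12 * n) :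
    ∑ a, ∑ b, ∑ c, rho ω S i a b c *
      Vt G n L (γ ^ 13) (S \ tri i a b c) (p - 1 / N) σ i x ≤
      (1 + 300 * C / N) * ww ω S i * Vt G n L (γ ^ 13) S p σ i x := by
  obtain ⟨hω, hC, hn, hN, hγ, hγ1, hL, hL2, hcard, b1, b2, b3, b4⟩ := P
  have hN1 : 0 < 1 / N := by positivity
  have hpγ : γ ≤ p := by linarith
  have hp0 : 0 < p := by linarith
  have hp'0 : 0 < p - 1 / N := by linarith
  obtain ⟨θ, hθ⟩ : ∃ θ, θ = γ ^ 13 / p ^ 12 := ⟨_, rfl⟩
  obtain ⟨θ', hθ'⟩ : ∃ θ', θ' = γ ^ 13 / (p - 1 / N) ^ 12 := ⟨_, rfl⟩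
  obtain ⟨W, hWd⟩ : ∃ W, W = ww ω S i := ⟨_, rfl⟩
  obtain ⟨r, hrd⟩ : ∃ r : ℝ, r = (outN S i x).card := ⟨_, rfl⟩
  obtain ⟨s, hsd⟩ : ∃ s : ℝ, s = (outN G i x).card := ⟨_, rfl⟩
  obtain ⟨A, hAd⟩ : ∃ A, A = ∑ a, ∑ b, ∑ c, rho ω S i a b c * (if a = x then (1 : ℝ) else 0) :=
    ⟨_, rfl⟩
  have hr0 : 0 ≤ r := by rw [hrd]; exact Nat.cast_nonneg _
  have hs0 : 0 ≤ s := by rw [hsd]; exact Nat.cast_nonneg _
  have hrn : r ≤ n := by
    rw [hrd, ← hcard]; exact_mod_cast Finset.card_le_univ _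
  have hsn : s ≤ n := by
    rw [hsd, ← hcard]; exact_mod_cast Finset.card_le_univ _
  rw [← hrd, ← hsd, ← hθ] at hr
  have hdd' := hdd
  rw [tol10 hγ hpγ, ← hθ] at hdd'
  have hW : |W - N * p * p ^ 2| ≤ N * p * (θ * p ^ 2) := by
    rw [hWd]; exact ww_close i (fun x u hxu => hdd' i x u hxu) (hcnt i)
  have hA : |A - p ^ 2 * r| ≤ θ * p ^ 2 * r := by
    rw [hAd, sum_rho_vertex, hrd]; exact vertex_close i x (fun x u hxu => hdd' i x u hxu)
  have hθ0 : 0 < θ := by rw [hθ]; positivity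
  have hθ10 : 10 * θ ≤ 1 := by rw [hθ]; exact tol12 hγ hγ1 hpγ
  have hθp : θ / p ≤ 1 := by
    have := tol_le hγ hpγ hp1 (k := 13) (by norm_num)
    have e : θ / p = γ ^ 13 / p ^ 13 := by rw [hθ]; field_simp
    rw [e]; exact this
  have hg1 : 12 * θ / (N * p) ≤ θ' - θ := by
    have := growth_ge 12 (θ0 := γ ^ 13) hN (by positivity) hp'0
    rw [hθ, hθ']
    simpa using this
  have hNγ : N * γ ≤ N * p := mul_le_mul_of_nonneg_left hpγ hN.le
  have hg2 : θ' - θ ≤ 48 / N := by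
    have h2 : 1 / N ≤ p / 2 := by
      rw [div_le_div_iff₀ hN (by norm_num)]; linarith
    have h3 : ((12 : ℕ) : ℝ) * (2 / (N * p)) ≤ 1 := by
      rw [← mul_div_assoc, div_le_one (by positivity)]
      push_cast; linarith
    have := growth_le 12 (θ0 := γ ^ 13) hN (by positivity) hp0 h2 h3
    rw [← hθ, ← hθ'] at this
    refine this.trans ?_
    push_cast
    have e : 4 * 12 * θ / (N * p) = 48 / N * (θ / p) := by field_simp; norm_num
    rw [e]
    calc 48 / N * (θ / p) ≤ 48 / N * 1 := mul_le_mul_of_nonneg_left hθp (by positivity)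
      _ = 48 / N := mul_one _
  have hdrift : |A - s / N * W| ≤ (θ' - θ) * n * W :=
    drift_vertex hN hp0 hp1 hn (by positivity) hθ0 hθ10 hr0 hrn hs0 hsn hr hW hA hg1
  have hWpos : 0 < W := nib_W_pos (θ := θ * p ^ 2) hN hp0 (y := p ^ 2) (by positivity)
    (by nlinarith [sq_nonneg p]) hW
  have hg0 : 0 ≤ θ' - θ := le_trans (by positivity) hg1
  have hsN : s / (n * N) ≤ 1 / N := by
    rw [div_le_div_iff₀ (by positivity) hN]
    nlinarith
  have hsN0 : 0 ≤ s / (n * N) := by positivity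
  -- the exponents
  obtain ⟨w, hw⟩ : ∃ w : α → α → α → ℝ, w = fun a _ _ =>
    L * (σ * (s / (n * N) - (if a = x then 1 else 0) / n) - (θ' - θ)) := ⟨_, rfl⟩
  have hn1 : 0 < 1 / n := by positivity
  have hw1 : ∀ a b c, |w a b c| ≤ 1 := by
    intro a b c
    rw [hw]
    simp only
    have h0 : (0 : ℝ) ≤ (if a = x then 1 else 0) / n := by
      split_ifs <;> simp [hn.le]
    have h1 : ((if a = x then 1 else 0) / n : ℝ) ≤ 2 * C / n := by
      refine div_le_div_of_nonneg_right ?_ hn.le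
      split_ifs <;> linarith
    have e1 : 1 / N + 48 / N ≤ 50 / N := by
      rw [← add_div]; exact div_le_div_of_nonneg_right (by norm_num) hN.le
    rw [abs_mul, abs_of_pos hL]
    refine le_trans (mul_le_mul_of_nonneg_left ?_ hL.le) b3
    rcases hσ with rfl | rfl <;> rw [abs_le] <;> constructor <;> linarith
  have hsum1 : ∑ a, ∑ b, ∑ c, rho ω S i a b c * w a b c ≤ 0 := by
    have e : ∀ a b c, rho ω S i a b c * w a b c =
        rho ω S i a b c * (L * (σ * (s / (n * N)) - (θ' - θ)) * 1 +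
          (-(L * σ / n)) * (if a = x then 1 else 0)) := by
      intro a b c; rw [hw]; ring
    simp_rw [e]
    rw [sum3_const_mul (rho ω S i) (fun _ _ _ => 1) (fun a _ _ => if a = x then 1 else 0)]
    simp only [mul_one]
    change L * (σ * (s / (n * N)) - (θ' - θ)) * ww ω S i + _ ≤ 0
    have hA' : ∑ a, ∑ b, ∑ c, rho ω S i a b c * (if a = x then (1 : ℝ) else 0) = A := hAd.symm
    rw [hA', ← hWd]
    obtain ⟨d1, d2⟩ := abs_le.1 hdrift
    have : L * (σ * (s / (n * N)) - (θ' - θ)) * W + -(L * σ / n) * A =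
        L / n * (-σ * (A - s / N * W) - (θ' - θ) * n * W) := by field_simp; ring
    rw [this]
    have h2 : -σ * (A - s / N * W) - (θ' - θ) * n * W ≤ 0 := by
      rcases hσ with rfl | rfl <;> linarith
    exact mul_nonpos_of_nonneg_of_nonpos (by positivity) h2
  have hsum2 : ∑ a, ∑ b, ∑ c, rho ω S i a b c * w a b c ^ 2 ≤
      300 * C / N * ∑ a, ∑ b, ∑ c, rho ω S i a b c := by
    change _ ≤ 300 * C / N * ww ω S i
    rw [← hWd]
    have hσ2 : σ ^ 2 = 1 := by rcases hσ with rfl | rfl <;> norm_num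
    have e : ∀ a b c, rho ω S i a b c * w a b c ^ 2 ≤
        rho ω S i a b c * (3 * n * ((s / (n * N)) ^ 2 + (θ' - θ) ^ 2) * 1 +
          (3 / n) * (if a = x then 1 else 0)) := by
      intro a b c
      refine mul_le_mul_of_nonneg_left ?_ (rho_nonneg hω _ _ _ _ _)
      rw [hw]
      have h3 := sq3 (σ * (s / (n * N))) (σ * ((if a = x then 1 else 0) / n)) (θ' - θ)
      have h4 : ((if a = x then (1 : ℝ) else 0) / n) ^ 2 = (if a = x then 1 else 0) / n ^ 2 := by
        split_ifs <;> simp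
      calc (L * (σ * (s / (n * N) - (if a = x then 1 else 0) / n) - (θ' - θ))) ^ 2 =
            n * (σ * (s / (n * N)) - σ * ((if a = x then 1 else 0) / n) - (θ' - θ)) ^ 2 := by
            rw [← hL2]; ring
        _ ≤ n * (3 * ((σ * (s / (n * N))) ^ 2 + (σ * ((if a = x then 1 else 0) / n)) ^ 2 +
            (θ' - θ) ^ 2)) := mul_le_mul_of_nonneg_left h3 hn.le
        _ = 3 * n * ((s / (n * N)) ^ 2 + (θ' - θ) ^ 2) * 1 +
            3 * n * ((if a = x then 1 else 0) / n ^ 2) := by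
            rw [mul_pow, mul_pow, hσ2, h4]; ring
        _ = _ := by
            congr 1
            field_simp
    have h5 : ∑ a, ∑ b, ∑ c, rho ω S i a b c * w a b c ^ 2 ≤
        ∑ a, ∑ b, ∑ c, rho ω S i a b c * (3 * n * ((s / (n * N)) ^ 2 + (θ' - θ) ^ 2) * 1 +
          (3 / n) * (if a = x then 1 else 0)) :=
      Finset.sum_le_sum fun a _ => Finset.sum_le_sum fun b _ =>
        Finset.sum_le_sum fun c _ => e a b c
    refine h5.trans ?_
    rw [sum3_const_mul (rho ω S i) (fun _ _ _ => 1) (fun a _ _ => if a = x then 1 else 0)]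
    simp only [mul_one]
    change 3 * n * ((s / (n * N)) ^ 2 + (θ' - θ) ^ 2) * ww ω S i + _ ≤ _
    have hA' : ∑ a, ∑ b, ∑ c, rho ω S i a b c * (if a = x then (1 : ℝ) else 0) = A := hAd.symm
    rw [hA', ← hWd]
    have hA2 : A ≤ 49 * n / N * W := by
      have h6 := (abs_le.1 hdrift).2
      have h7 : (s / N + (θ' - θ) * n) * W ≤ 49 * n / N * W := by
        refine mul_le_mul_of_nonneg_right ?_ hWpos.le
        have h8 : s / N ≤ n / N := div_le_div_of_nonneg_right hsn hN.le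
        have h9 : (θ' - θ) * n ≤ 48 / N * n := mul_le_mul_of_nonneg_right hg2 hn.le
        have : 49 * n / N = n / N + 48 / N * n := by ring
        linarith
      linarith
    have hA3 : 3 / n * A ≤ 147 / N * W := by
      calc 3 / n * A ≤ 3 / n * (49 * n / N * W) :=
            mul_le_mul_of_nonneg_left hA2 (by positivity)
        _ = 147 / N * W := by field_simp; ring
    have h8 : (s / (n * N)) ^ 2 + (θ' - θ) ^ 2 ≤ (1 / N) ^ 2 + (48 / N) ^ 2 :=
      add_le_add (pow_le_pow_left₀ hsN0 hsN 2) (pow_le_pow_left₀ hg0 hg2 2)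
    have h9 : 3 * n * ((s / (n * N)) ^ 2 + (θ' - θ) ^ 2) ≤ 3 / N := by
      calc 3 * n * ((s / (n * N)) ^ 2 + (θ' - θ) ^ 2) ≤ 3 * n * ((1 / N) ^ 2 + (48 / N) ^ 2) :=
            mul_le_mul_of_nonneg_left h8 (by positivity)
        _ = 6915 * n / (N * N) := by ring
        _ ≤ 3 / N := by
            rw [div_le_div_iff₀ (by positivity) hN]
            nlinarith [mul_pos hN hN]
    have h10 : 3 * n * ((s / (n * N)) ^ 2 + (θ' - θ) ^ 2) * W ≤ 3 / N * W :=
      mul_le_mul_of_nonneg_right h9 hWpos.le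
    have h11 : 300 * C / N * W = 3 / N * W + 147 / N * W + (300 * C - 150) * (1 / N * W) := by
      ring
    have h12 : 0 ≤ 1 / N * W := by positivity
    have h13 : 0 ≤ (300 * C - 150) * (1 / N * W) := mul_nonneg (by linarith) h12
    linarith
  have hmain := exp_sum3 (rho ω S i) w (rho_nonneg hω S i) hw1 hsum1 (300 * C / N) hsum2
  change _ ≤ (1 + 300 * C / N) * ww ω S i at hmain
  have hE : 0 < Vt G n L (γ ^ 13) S p σ i x := Real.exp_pos _
  have hterm : ∀ a b c, rho ω S i a b c *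
      Vt G n L (γ ^ 13) (S \ tri i a b c) (p - 1 / N) σ i x =
      rho ω S i a b c * Real.exp (w a b c) * Vt G n L (γ ^ 13) S p σ i x := by
    intro a b c
    by_cases hab : (i, a, b) ∈ S
    · rw [mul_assoc]
      congr 1
      unfold Vt
      rw [← Real.exp_add, out_sdiff_tri hab, hw, ← hrd, ← hsd, ← hθ, ← hθ']
      congr 1
      field_simp
      ring
    · unfold rho
      rw [chi_of_not_mem hab]; ring
  calc _ = ∑ a, ∑ b, ∑ c, rho ω S i a b c * Real.exp (w a b c) * Vt G n L (γ ^ 13) S p σ i x :=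
        Finset.sum_congr rfl fun a _ => Finset.sum_congr rfl fun b _ =>
          Finset.sum_congr rfl fun c _ => hterm a b c
    _ = (∑ a, ∑ b, ∑ c, rho ω S i a b c * Real.exp (w a b c)) * Vt G n L (γ ^ 13) S p σ i x := by
        simp only [Finset.sum_mul]
    _ ≤ _ := mul_le_mul_of_nonneg_right hmain hE.le

end Pool.Agent.Lib.MP_cb9986_co.SQ
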