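import Pool.Agent.Lib.MP_cb9986_co.SQ.Spec
import Pool.Agent.Lib.MP_cb9986_co.S9.Pls

/-!
Completion of partial Latin squares from the triangle decomposition theorem.
-/

set_option autoImplicit false
open Finset

namespace Pool.Agent.Lib.MP_cb9986_co.SQ

open S9

theorem pls (h : MainStmt) : PlsStmt := by
  classical
  intro ε hε
  obtain ⟨n₀, hn₀⟩ := h ε hε
  refine ⟨n₀, fun n hn L h1 h2 hr hc hs => ?_⟩
  have fn : ∀ r c s s', L r c = some s → L r c = some s' → s = s' := by
    intro r c s s' h h'
    rw [h] at h'
    exact Option.some.inj h'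
  have rowc : ∀ r, (univ.filter fun c => ∃ s, L r c = some s).card =
      (univ.filter fun s => ∃ c, L r c = some s).card := fun r =>
    pls_card_eq (fun c s => L r c = some s) (fun c s s' => fn r c s s')
      (fun c c' s => h1 r c c' s)
  have colc : ∀ c, (univ.filter fun r => ∃ s, L r c = some s).card =
      (univ.filter fun s => ∃ r, L r c = some s).card := fun c =>
    pls_card_eq (fun r s => L r c = some s) (fun r s s' => fn r c s s')
      (fun r r' s => h2 r r' c s)
  have symc : ∀ s, (univ.filter fun r => ∃ c, L r c = some s).card =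
      (univ.filter fun c => ∃ r, L r c = some s).card := fun s =>
    pls_card_eq (fun r c => L r c = some s) (fun r c c' => h1 r c c' s)
      (fun r r' c => h2 r r' c s)
  have rowk : ∀ r, ((univ.filter fun c => ∃ s, L r c = some s).card : ℝ) ≤
      (1 / 4 - ε) * n := by
    intro r
    have := hr r
    simpa only [Option.isSome_iff_exists] using this
  have colk : ∀ c, ((univ.filter fun r => ∃ s, L r c = some s).card : ℝ) ≤
      (1 / 4 - ε) * n := by
    intro c
    have := hc c
    simpa only [Option.isSome_iff_exists] using this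
  have symk : ∀ s, ((univ.filter fun r => ∃ c, L r c = some s).card : ℝ) ≤
      (1 / 4 - ε) * n := by
    intro s
    refine le_trans ?_ (hs s)
    choose! f hf using fun (r : Fin n) (h : ∃ c, L r c = some s) => h
    have : (univ.filter fun r => ∃ c, L r c = some s).card ≤
        (univ.filter fun p : Fin n × Fin n => L p.1 p.2 = some s).card := by
      refine Finset.card_le_card_of_injOn (fun r => (r, f r)) ?_ ?_
      · intro r hr
        have hr' : ∃ c, L r c = some s := by simpa using hr
        simpa using hf r hr'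
      · intro r _ r' _ h
        exact (Prod.mk.inj h).1
    exact_mod_cast this
  have e02 : (0 : ZMod 3) + 2 = 2 := by decide
  have e12 : (1 : ZMod 3) + 2 = 0 := by decide
  have e22 : (2 : ZMod 3) + 2 = 1 := by decide
  -- the six degree formulas
  have o0 : ∀ r, (outN (plsG L) 0 r).card + (univ.filter fun c => ∃ s, L r c = some s).card = n :=
    fun r => pls_compl _ _ fun c => by rw [mem_outN, pls_mem0]
  have i0 : ∀ r, (inN (plsG L) 0 r).card + (univ.filter fun s => ∃ c, L r c = some s).card = n :=
    fun r => pls_compl _ _ fun c => by rw [mem_inN, e02, pls_mem2]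
  have o1 : ∀ c, (outN (plsG L) 1 c).card + (univ.filter fun s => ∃ r, L r c = some s).card = n :=
    fun r => pls_compl _ _ fun c => by rw [mem_outN, pls_mem1]
  have i1 : ∀ c, (inN (plsG L) 1 c).card + (univ.filter fun r => ∃ s, L r c = some s).card = n :=
    fun r => pls_compl _ _ fun c => by rw [mem_inN, e12, pls_mem0]
  have o2 : ∀ s, (outN (plsG L) 2 s).card + (univ.filter fun r => ∃ c, L r c = some s).card = n :=
    fun r => pls_compl _ _ fun c => by rw [mem_outN, pls_mem2]
  have i2 : ∀ s, (inN (plsG L) 2 s).card + (univ.filter fun c => ∃ r, L r c = some s).card = n :=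
    fun r => pls_compl _ _ fun c => by rw [mem_inN, e22, pls_mem1]
  have hcases : ∀ i : ZMod 3, i = 0 ∨ i = 1 ∨ i = 2 := by decide
  have hBal : Bal (plsG L) := by
    intro i x
    rcases hcases i with rfl | rfl | rfl
    · have a1 := o0 x
      have a2 := i0 x
      have a3 := rowc x
      omega
    · have a1 := o1 x
      have a2 := i1 x
      have a3 := colc x
      omega
    · have a1 := o2 x
      have a2 := i2 x
      have a3 := symc x
      omega
  have hdeg : ∀ i x, (3 / 4 + ε) * n ≤ ((outN (plsG L) i x).card : ℝ) := by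
    intro i x
    rcases hcases i with rfl | rfl | rfl
    · have a1 : ((outN (plsG L) 0 x).card : ℝ) +
          (univ.filter fun c => ∃ s, L x c = some s).card = n := by exact_mod_cast o0 x
      have a2 := rowk x
      linarith
    · have a1 : ((outN (plsG L) 1 x).card : ℝ) +
          (univ.filter fun s => ∃ r, L r x = some s).card = n := by exact_mod_cast o1 x
      have a2 := colk x
      rw [colc x] at a2
      linarith
    · have a1 : ((outN (plsG L) 2 x).card : ℝ) +
          (univ.filter fun r => ∃ c, L r c = some x).card = n := by exact_mod_cast o2 x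
      have a2 := symk x
      linarith
  obtain ⟨S, s1, s2, s3, s4, s5⟩ := pls_triples (hn₀ n hn (plsG L) hBal hdeg)
  have hM : ∀ r c, ∃ s, L r c = some s ∨ ((¬ ∃ s, L r c = some s) ∧ S r c s) := by
    intro r c
    by_cases h : ∃ s, L r c = some s
    · obtain ⟨s, hs⟩ := h
      exact ⟨s, Or.inl hs⟩
    · obtain ⟨s, hs⟩ := s2 r c (pls_mem0.2 h)
      exact ⟨s, Or.inr ⟨h, hs⟩⟩
  choose M hM using hM
  refine ⟨M, ?_, ?_, ?_⟩
  · intro r c c' e
    rcases hM r c with a | ⟨a, b⟩ <;> rcases hM r c' with a' | ⟨a', b'⟩
    · rw [← e] at a'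
      exact h1 r c c' _ a a'
    · rw [← e] at b'
      exact absurd ⟨c, a⟩ (pls_mem2.1 (s1 _ _ _ b').2.2)
    · rw [← e] at a'
      exact absurd ⟨c', a'⟩ (pls_mem2.1 (s1 _ _ _ b).2.2)
    · rw [← e] at b'
      exact s4 r c c' _ b b'
  · intro c r r' e
    have e' : M r c = M r' c := e
    rcases hM r c with a | ⟨a, b⟩ <;> rcases hM r' c with a' | ⟨a', b'⟩
    · rw [← e'] at a'
      exact h2 r r' c _ a a'
    · rw [← e'] at b'
      exact absurd ⟨r, a⟩ (pls_mem1.1 (s1 _ _ _ b').2.1)
    · rw [← e'] at a'
      exact absurd ⟨r', a'⟩ (pls_mem1.1 (s1 _ _ _ b).2.1)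
    · rw [← e'] at b'
      exact s5 r r' c _ b b'
  · intro r c s hs
    rcases hM r c with a | ⟨a, -⟩
    · exact fn r c _ _ a hs
    · exact absurd ⟨s, hs⟩ a

end Pool.Agent.Lib.MP_cb9986_co.SQ
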