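import Pool.Agent.Lib.MP_cb9986_co.SQ.VorLevel
import Pool.Agent.Lib.MP_cb9986_co.S9.VorStep

/-!
The recursion for the vortex, at the threshold `3 / 4`. The splitting lemmas, the test sets and
the spread of the protected set are those of `S9`.
-/

set_option autoImplicit false
set_option linter.unusedSectionVars false
open Finset

namespace Pool.Agent.Lib.MP_cb9986_co.SQ

open Pool.Agent.Lib.MP_cb9986_co.S9

/-- Constants of the vortex. -/
structure Cst (K m : ℕ) (ε ξ δ₀ B : ℝ) (nc : ℕ) : Prop where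
  K1000 : 1000 ≤ K
  m1000 : 1000 ≤ m
  ε_pos : 0 < ε
  K_ε : 1 / (K : ℝ) ≤ ε / 4
  m_ε : 1 / (m : ℝ) ≤ ε / 4
  δ_pos : 0 < δ₀
  δ_le1 : δ₀ ≤ 1
  δ_ξ : 14 * K * δ₀ ≤ ξ
  δ_m : δ₀ * (1000 * K * m ^ 2) ≤ 1
  B_nc : nc ≤ B - 2 * m ^ 2
  B_split : 4 * (K : ℝ) ^ 2 * m ^ 4 ≤ δ₀ * (B - 2 * m ^ 2)
  B_exp : 10 ^ 9 * (K : ℝ) ^ 11 * m ^ 20 ≤ δ₀ ^ 6 * (B - 2 * m ^ 2)

/-- The conclusion of the cover-down step for fixed constants. -/
def CoverAt (ε ξ : ℝ) (K m nc : ℕ) : Prop :=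
  ∀ (α : Type) [DecidableEq α] [Fintype α] (n n' : ℕ)
      (V U : ZMod 3 → Finset α) (P Q : ZMod 3 → α → ℕ) (G Z G' : Finset (Arc α)), nc ≤ n →
      Level ε ξ K m n n' V U P Q G Z → G' ⊆ G → Bal G' → restr U G ∪ resv U P Q G ⊆ G' →
      DegLe (G \ G') (ε / 2 * n) →
      ∃ H, H ⊆ G' ∧ Dec H ∧ G' \ H ⊆ restr U G ∧ Disjoint H Z ∧
        DegLe (H ∩ restr U G) (ε / 2 * n')

/-- The vortex property with `ℓ` levels. -/
def VP (K m : ℕ) (ε δ₀ B : ℝ) (ℓ : ℕ) : Prop :=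
  ∀ (α : Type) [DecidableEq α] [Fintype α] (V : ZMod 3 → Finset α) (n : ℕ)
    (G : Finset (Arc α)) (T : Finset (Finset α)), (∀ i, (V i).card = n) → Inside V G →
    (K : ℝ) ^ ℓ * B ≤ n + 2 * m ^ 2 →
    (∀ i, ∀ x ∈ V i, (3 / 4 + (ε + 4 * K * δ₀ * (1 - 1 / 2 ^ ℓ))) * n ≤ (outN G i x).card ∧
      (3 / 4 + (ε + 4 * K * δ₀ * (1 - 1 / 2 ^ ℓ))) * n ≤ (inN G i x).card) →
    (∀ i x, |((outN G i x).card : ℝ) - (inN G i x).card| ≤ 10 * K * (δ₀ / 2 ^ ℓ) * n) →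
    T.card ≤ 12 * K * n →
    ∃ (U : ZMod 3 → Finset α) (Z : Finset (Arc α)), Z ⊆ G ∧ (∀ i, K ^ ℓ * (U i).card ≤ n) ∧
      (∀ S ∈ T, ∀ i v, (S ⊆ V (i + 1) → ((outN Z i v ∩ S).card : ℝ) ≤
          (1 / K + 1 / m) * S.card + 2 * δ₀ * n) ∧
        (S ⊆ V (i + 2) → ((inN Z i v ∩ S).card : ℝ) ≤
          (1 / K + 1 / m) * S.card + 2 * δ₀ * n)) ∧
      ∀ G', G' ⊆ G → Bal G' → Z ⊆ G' → DegLe (G \ G') (ε / 2 * n) →
        ∃ H, H ⊆ G' ∧ Dec H ∧ G' \ H ⊆ restr U G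

theorem vp_zero (K m : ℕ) (ε δ₀ B : ℝ) (hδ : 0 ≤ δ₀) : VP K m ε δ₀ B 0 := by
  intro α _ _ V n G T hV hin _ _ _ _
  refine ⟨V, ∅, Finset.empty_subset _, ?_, ?_, ?_⟩
  · intro i; rw [hV i]; simp
  · intro S _ i v
    have h1 : outN (∅ : Finset (Arc α)) i v = ∅ := by ext y; simp
    have h2 : inN (∅ : Finset (Arc α)) i v = ∅ := by ext y; simp
    rw [h1, h2]
    simp only [Finset.empty_inter, Finset.card_empty, Nat.cast_zero]
    refine ⟨fun _ => by positivity, fun _ => by positivity⟩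
  · intro G' hG' _ _ _
    refine ⟨∅, Finset.empty_subset _, Dec.empty, ?_⟩
    intro e he
    have h1 : e ∈ G := hG' (Finset.mem_sdiff.1 he).1
    unfold restr
    exact Finset.mem_filter.2 ⟨h1, hin e h1⟩

theorem vp_succ {K m nc : ℕ} {ε ξ δ₀ B : ℝ} (C : Cst K m ε ξ δ₀ B nc) (hs : SplitStmt)
    (hc : CoverAt ε ξ K m nc) (ℓ : ℕ) (ih : VP K m ε δ₀ B ℓ) : VP K m ε δ₀ B (ℓ + 1) := by
  intro α _ _ V n G T hV hin hn hdeg himb hT
  obtain ⟨hK, hm, hε, hKε, hmε, hδ0, hδ1, hδξ, hδm, Bnc, Bs, Be⟩ := C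
  have hKR : (1000 : ℝ) ≤ K := by exact_mod_cast hK
  have hmR : (1000 : ℝ) ≤ m := by exact_mod_cast hm
  have hK0 : (0 : ℝ) < K := by linarith
  have hm0 : (0 : ℝ) < m := by linarith
  obtain ⟨δ, hδ⟩ : ∃ δ, δ = δ₀ / 2 ^ (ℓ + 1) := ⟨_, rfl⟩
  have hδpos : 0 < δ := by rw [hδ]; positivity
  have h2l : (1 : ℝ) ≤ 2 ^ (ℓ + 1) := one_le_pow₀ (by norm_num)
  have hδδ : δ ≤ δ₀ := by rw [hδ]; exact div_le_self hδ0.le h2l
  obtain ⟨M, hM⟩ : ∃ M : ℝ, M = B - 2 * m ^ 2 := ⟨_, rfl⟩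
  rw [← hM] at Bnc Bs Be
  have hM0 : 0 < M := by
    by_contra hcon
    push Not at hcon
    have h1 : δ₀ * M ≤ 0 := mul_nonpos_of_nonneg_of_nonpos hδ0.le hcon
    have h2 : 0 < 4 * (K : ℝ) ^ 2 * m ^ 4 := by positivity
    linarith
  have hKl : (1 : ℝ) ≤ K ^ (ℓ + 1) := one_le_pow₀ (by linarith)
  have hnM : (K : ℝ) ^ (ℓ + 1) * M ≤ n := by
    have h1 : (K : ℝ) ^ (ℓ + 1) * M = K ^ (ℓ + 1) * B - K ^ (ℓ + 1) * (2 * m ^ 2) := by
      rw [hM]; ring
    have h2 : 1 * (2 * (m : ℝ) ^ 2) ≤ K ^ (ℓ + 1) * (2 * m ^ 2) :=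
      mul_le_mul_of_nonneg_right hKl (by positivity)
    linarith
  have hMn : M ≤ n := by
    refine le_trans ?_ hnM
    calc M = 1 * M := (one_mul M).symm
      _ ≤ _ := mul_le_mul_of_nonneg_right hKl hM0.le
  have hδn : δ₀ * M ≤ δ * n := by
    rw [hδ]
    calc δ₀ * M = δ₀ / 2 ^ (ℓ + 1) * (2 ^ (ℓ + 1) * M) := by field_simp
      _ ≤ δ₀ / 2 ^ (ℓ + 1) * n := by
          refine mul_le_mul_of_nonneg_left ?_ (by positivity)
          refine le_trans ?_ hnM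
          exact mul_le_mul_of_nonneg_right (pow_le_pow_left₀ (by norm_num) (by linarith) _) hM0.le
  have hδ6n : δ₀ ^ 6 * M ≤ δ ^ 6 * n := by
    rw [hδ]
    calc δ₀ ^ 6 * M = (δ₀ / 2 ^ (ℓ + 1)) ^ 6 * ((2 ^ 6) ^ (ℓ + 1) * M) := by
          rw [div_pow, ← pow_mul, ← pow_mul]
          have : (ℓ + 1) * 6 = 6 * (ℓ + 1) := by ring
          rw [this]; field_simp
      _ ≤ (δ₀ / 2 ^ (ℓ + 1)) ^ 6 * n := by
          refine mul_le_mul_of_nonneg_left ?_ (by positivity)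
          refine le_trans ?_ hnM
          exact mul_le_mul_of_nonneg_right
            (pow_le_pow_left₀ (by norm_num) (by norm_num; linarith) _) hM0.le
  have hsplit : 4 * (K : ℝ) ^ 2 * m ^ 4 ≤ δ * n := Bs.trans hδn
  have hn_big : 4 * (K : ℝ) ^ 2 * m ^ 4 ≤ n := by
    refine hsplit.trans ?_
    calc δ * n ≤ 1 * n := mul_le_mul_of_nonneg_right (hδδ.trans hδ1) (Nat.cast_nonneg _)
      _ = n := one_mul _
  have hn_bigN : 4 * K ^ 2 * m ^ 4 ≤ n := by exact_mod_cast hn_big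
  have hK1 : 1 ≤ K := by omega
  have hm1 : 1 ≤ m := by omega
  have hKm4 : K * m ^ 4 ≤ n := by
    refine le_trans ?_ hn_bigN
    have : K ≤ 4 * K ^ 2 := by nlinarith
    exact Nat.mul_le_mul_right _ this
  have hKm2 : 2 * (K * m ^ 2) ≤ n := by
    refine le_trans ?_ hn_bigN
    have h1 : m ^ 2 ≤ m ^ 4 := Nat.pow_le_pow_right (by omega) (by norm_num)
    have h2 : 2 * K ≤ 4 * K ^ 2 := by nlinarith
    calc 2 * (K * m ^ 2) = 2 * K * m ^ 2 := by ring
      _ ≤ 4 * K ^ 2 * m ^ 4 := Nat.mul_le_mul h2 h1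
  have hKmpos : 0 < K * m ^ 2 := by positivity
  have hn1 : 1 ≤ n := by omega
  -- splitting
  obtain ⟨T', hT'⟩ : ∃ T', T' = T ∪ testSets V G := ⟨_, rfl⟩
  have hT'card : (T'.card : ℝ) ≤ 30 * K * n ^ 2 := by
    have h1 : T'.card ≤ 12 * K * n + (3 * n ^ 2 + 6 * n) := by
      rw [hT']
      exact (Finset.card_union_le _ _).trans (Nat.add_le_add hT (testSets_card hV G))
    have h2 : 12 * K * n + (3 * n ^ 2 + 6 * n) ≤ 30 * K * n ^ 2 := by
      have h3 : n ≤ n ^ 2 := by nlinarith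
      have h4 : K * n ≤ K * n ^ 2 := Nat.mul_le_mul_left _ h3
      have h5 : n ^ 2 ≤ K * n ^ 2 := by nlinarith
      nlinarith
    exact_mod_cast h1.trans h2
  obtain ⟨U, P, Q, hUPQ⟩ := hs K m δ (by omega) hm1 hδpos (hδδ.trans hδ1) α V n T' hV hsplit
    (split_exp hK1 hm1 hδpos (by omega) hT'card (Be.trans hδ6n))
  have sp := spl_of (by omega) (by omega) hKm4 hUPQ
  obtain ⟨q, hq⟩ : ∃ q, q = n / (K * m ^ 2) := ⟨_, rfl⟩
  obtain ⟨n', hn'⟩ : ∃ n', n' = m ^ 2 * (n / (K * m ^ 2)) := ⟨_, rfl⟩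
  rw [← hn'] at sp
  have hn'q : n' = m ^ 2 * q := by rw [hn', hq]
  have hq2 : 2 ≤ q := by rw [hq]; exact (Nat.le_div_iff_mul_le hKmpos).2 hKm2
  have hqlt : n < K * m ^ 2 * (q + 1) := by rw [hq]; exact Nat.lt_mul_div_succ n hKmpos
  have hqle : K * m ^ 2 * q ≤ n := by rw [hq]; exact Nat.mul_div_le n _
  have hle : K * n' ≤ n := by
    rw [hn'q]
    calc K * (m ^ 2 * q) = K * m ^ 2 * q := by ring
      _ ≤ n := hqle
  have hge : n ≤ 2 * K * n' := by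
    rw [hn'q]
    have : K * m ^ 2 * (q + 1) ≤ 2 * (K * m ^ 2 * q) := by nlinarith
    calc n ≤ K * m ^ 2 * (q + 1) := hqlt.le
      _ ≤ 2 * (K * m ^ 2 * q) := this
      _ = 2 * K * (m ^ 2 * q) := by ring
  have hleR : (K : ℝ) * n' ≤ n := by exact_mod_cast hle
  have hgeR : (n : ℝ) ≤ 2 * K * n' := by exact_mod_cast hge
  have hn'2 : (n : ℝ) ≤ K * (n' + m ^ 2) := by
    have h1 : n ≤ K * (n' + m ^ 2) := by
      rw [hn'q]
      calc n ≤ K * m ^ 2 * (q + 1) := hqlt.le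
        _ = K * (m ^ 2 * q + m ^ 2) := by ring
    exact_mod_cast h1
  have hn'm : 2 * (m : ℝ) ^ 2 ≤ n' := by
    have h1 : 2 * m ^ 2 ≤ n' := by rw [hn'q]; nlinarith [Nat.zero_le (m ^ 2)]
    exact_mod_cast h1
  have hn'0 : (0 : ℝ) ≤ n' := Nat.cast_nonneg _
  have hn0 : (0 : ℝ) ≤ n := Nat.cast_nonneg _
  -- the inner level
  have e2l : δ₀ / 2 ^ ℓ = 2 * δ := by rw [hδ, pow_succ]; field_simp
  obtain ⟨f, hf⟩ : ∃ f, f = ε + 4 * K * δ₀ * (1 - 1 / 2 ^ (ℓ + 1)) := ⟨_, rfl⟩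
  have hf2 : ε + 4 * K * δ₀ * (1 - 1 / 2 ^ ℓ) = f - 4 * K * δ := by
    rw [hf, hδ, pow_succ]; field_simp; ring
  have hfε : ε ≤ f := by
    rw [hf]
    have h1 : (1 : ℝ) / 2 ^ (ℓ + 1) ≤ 1 := by rw [div_le_one (by positivity)]; exact h2l
    have h2 : 0 ≤ 4 * K * δ₀ * (1 - 1 / 2 ^ (ℓ + 1)) := mul_nonneg (by positivity) (by linarith)
    linarith
  rw [← hf] at hdeg
  rw [← hδ] at himb
  have hT1 : ∀ i, ∀ x ∈ V i, outN G i x ∈ T' ∧ inN G i x ∈ T' := fun i x hx => by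
    rw [hT']
    exact ⟨Finset.mem_union_right _ (testSets_out hx), Finset.mem_union_right _ (testSets_in hx)⟩
  have hT2 : ∀ i, ∀ x ∈ V i, ∀ y ∈ V (i + 1), outN G (i + 1) y ∩ inN G i x ∈ T' :=
    fun i x hx y hy => by rw [hT']; exact Finset.mem_union_right _ (testSets_two hx hy)
  have hdivK : ∀ {s : ℝ}, (3 / 4 + f) * n ≤ s → (3 / 4 + (f - 4 * K * δ)) * n' ≤ s / K - δ * n := by
    intro s hs
    have h1 : (3 / 4 + f) * n' ≤ s / K := by
      rw [le_div_iff₀ hK0]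
      have hf0 : 0 ≤ 3 / 4 + f := by linarith
      calc (3 / 4 + f) * n' * K = (3 / 4 + f) * (K * n') := by ring
        _ ≤ (3 / 4 + f) * n := mul_le_mul_of_nonneg_left hleR hf0
        _ ≤ s := hs
    have h2 : δ * n ≤ δ * (2 * K * n') := mul_le_mul_of_nonneg_left hgeR hδpos.le
    have h3 : 0 ≤ δ * (2 * K * n') := by positivity
    have h4 : (3 / 4 + (f - 4 * K * δ)) * n' = (3 / 4 + f) * n' - 2 * (δ * (2 * K * n')) := by ring
    linarith
  have inner := ih α U n' (restr U G) (nextSets V (resv U P Q G)) sp.cardU (restr_inside U G)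
    (by
      have h1 : (K : ℝ) * (K ^ ℓ * B) ≤ K * (n' + 2 * m ^ 2) := by
        calc (K : ℝ) * (K ^ ℓ * B) = K ^ (ℓ + 1) * B := by ring
          _ ≤ n + 2 * m ^ 2 := hn
          _ ≤ K * (n' + m ^ 2) + K * m ^ 2 := by
              have : (2 : ℝ) * m ^ 2 ≤ K * m ^ 2 :=
                mul_le_mul_of_nonneg_right (by linarith) (by positivity)
              linarith
          _ = K * (n' + 2 * m ^ 2) := by ring
      exact le_of_mul_le_mul_left h1 hK0)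
    (by
      intro i x hx
      have hxV := sp.sub i hx
      rw [hf2, out_restr_in hx, in_restr_in hx]
      have a1 := (abs_le.1 (sp.t1 (i + 1) _ (hT1 i x hxV).1 (hin.out i x))).1
      have a2 := (abs_le.1 (sp.t1 (i + 2) _ (hT1 i x hxV).2 (hin.in' i x))).1
      have b1 := hdivK (hdeg i x hxV).1
      have b2 := hdivK (hdeg i x hxV).2
      exact ⟨by linarith, by linarith⟩)
    (by
      intro i x
      rw [e2l]
      by_cases hx : x ∈ U i
      · have hxV := sp.sub i hx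
        rw [out_restr_in hx, in_restr_in hx]
        have a1 := abs_le.1 (sp.t1 (i + 1) _ (hT1 i x hxV).1 (hin.out i x))
        have a2 := abs_le.1 (sp.t1 (i + 2) _ (hT1 i x hxV).2 (hin.in' i x))
        have a3 := himb i x
        obtain ⟨a, ha⟩ : ∃ a : ℝ, a = (outN G i x).card := ⟨_, rfl⟩
        obtain ⟨b, hb⟩ : ∃ b : ℝ, b = (inN G i x).card := ⟨_, rfl⟩
        rw [← ha] at a1 a3
        rw [← hb] at a2 a3
        have h1 : |a / K - b / K| ≤ 10 * K * δ * (n' + m ^ 2) := by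
          rw [← sub_div, abs_div, abs_of_pos hK0, div_le_iff₀ hK0]
          refine a3.trans ?_
          calc 10 * K * δ * n ≤ 10 * K * δ * (K * (n' + m ^ 2)) :=
                mul_le_mul_of_nonneg_left hn'2 (by positivity)
            _ = _ := by ring
        have h2 := abs_le.1 h1
        have h3 : δ * n ≤ δ * (2 * K * n') := mul_le_mul_of_nonneg_left hgeR hδpos.le
        have h4 : 10 * K * δ * (n' + m ^ 2) ≤ 15 * K * δ * n' := by
          have : 10 * K * δ * (n' + (m : ℝ) ^ 2) = 10 * K * δ * n' + 5 * K * δ * (2 * m ^ 2) := by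
            ring
          rw [this]
          have h5 : 5 * K * δ * (2 * (m : ℝ) ^ 2) ≤ 5 * K * δ * n' :=
            mul_le_mul_of_nonneg_left hn'm (by positivity)
          linarith
        have h6 : 10 * (K : ℝ) * (2 * δ) * n' = 15 * K * δ * n' + 5 * K * δ * n' := by ring
        have h7 : 2 * (δ * (2 * K * n')) = 4 * K * δ * n' := by ring
        have h8 : 0 ≤ K * δ * n' := by positivity
        rw [abs_le]
        constructor <;> linarith [a1.1, a1.2, a2.1, a2.2, h2.1, h2.2]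
      · rw [out_restr_out hx, in_restr_out hx]
        simp only [Finset.card_empty, Nat.cast_zero, sub_self, abs_zero]
        positivity)
    (by
      refine (nextSets_card hV _).trans ?_
      calc 6 * n ≤ 6 * (2 * K * n') := Nat.mul_le_mul_left _ hge
        _ = 12 * K * n' := by ring)
  obtain ⟨U', Z', hZ'G, hU'card, hZ'sp, hZ'dec⟩ := inner
  have hincl : restr U G ∪ resv U P Q G ⊆ G :=
    Finset.union_subset (restr_subset U G) (Finset.filter_subset _ _)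
  have hLevel : Level ε ξ K m n n' V U P Q G Z' := by
    refine level_of_spl sp hε hK hm hKε hmε hle hge hV hin ?_ himb ?_ hδpos.le hδδ hδm hZ'G ?_ ?_ hT2 hT1
    · intro i x hx
      have h1 : (3 / 4 + ε) * (n : ℝ) ≤ (3 / 4 + f) * n :=
        mul_le_mul_of_nonneg_right (by linarith) hn0
      exact ⟨h1.trans (hdeg i x hx).1, h1.trans (hdeg i x hx).2⟩
    · have h1 : 14 * K * δ ≤ 14 * K * δ₀ := mul_le_mul_of_nonneg_left hδδ (by positivity)
      have h2 : 4 * δ ≤ 4 * K * δ := by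
        refine mul_le_mul_of_nonneg_right ?_ hδpos.le
        linarith
      linarith
    · intro i x hx hxU u
      have h1 := (hZ'sp _ (nextSets_in (R := resv U P Q G) hx) (i + 1) u).1
      refine h1 ?_
      rw [(z3 i).1, in_resv_out hxU]
      intro y hy
      exact (Finset.mem_filter.1 hy).2.1
    · intro i x hx hxU v
      have h1 := (hZ'sp _ (nextSets_out (R := resv U P Q G) hx) (i + 2) v).2
      refine h1 ?_
      rw [(z3 i).2.2.2, out_resv_out hxU]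
      intro y hy
      exact (Finset.mem_filter.1 hy).2.1
  refine ⟨U', restr U G ∪ resv U P Q G, hincl, ?_, ?_, ?_⟩
  · intro i
    calc K ^ (ℓ + 1) * (U' i).card = K * (K ^ ℓ * (U' i).card) := by ring
      _ ≤ K * n' := Nat.mul_le_mul_left _ (hU'card i)
      _ ≤ n := hle
  · intro S hS i v
    exact prot_spread sp hK hm hδpos.le hδδ (by rw [hT']; exact Finset.mem_union_left _ hS) i v
  · intro G' hG'G hbal hprot hdl
    obtain ⟨H, hH1, hH2, hH3, hH4, hH5⟩ := hc α n n' V U P Q G Z' G' (by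
      have : (nc : ℝ) ≤ n := Bnc.trans hMn
      exact_mod_cast this) hLevel hG'G hbal hprot hdl
    have hrest : restr U G ⊆ G' := Finset.subset_union_left.trans hprot
    obtain ⟨H', k1, k2, k3⟩ := hZ'dec (G' \ H) hH3 (hbal.sdiff hH2.bal hH1) (by
      intro e he
      refine Finset.mem_sdiff.2 ⟨hrest (hZ'G he), fun h => ?_⟩
      exact Finset.disjoint_left.1 hH4 h he) (by
      refine hH5.mono ?_ le_rfl
      intro e he
      rw [Finset.mem_sdiff, Finset.mem_sdiff] at he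
      rw [Finset.mem_inter]
      refine ⟨?_, he.1⟩
      by_contra hne
      exact he.2 ⟨hrest he.1, hne⟩)
    refine ⟨H ∪ H', Finset.union_subset hH1 (k1.trans Finset.sdiff_subset), hH2.union k2 ?_, ?_⟩
    · rw [Finset.disjoint_left]
      intro e he he'
      exact (Finset.mem_sdiff.1 (k1 he')).2 he
    · intro e he
      rw [Finset.mem_sdiff, Finset.mem_union, not_or] at he
      have h1 : e ∈ restr U' (restr U G) :=
        k3 (Finset.mem_sdiff.2 ⟨Finset.mem_sdiff.2 ⟨he.1, he.2.1⟩, he.2.2⟩)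
      unfold restr at h1 ⊢
      rw [Finset.mem_filter, Finset.mem_filter] at h1
      exact Finset.mem_filter.2 ⟨h1.1.1, h1.2⟩

end Pool.Agent.Lib.MP_cb9986_co.SQ
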